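import Pool.Agent.H786Z.NI.Defs

open Filter Topology

namespace Pool.Agent.H786Z.NI

variable {X : Type*} [NormedAddCommGroup X] [NormedSpace ℝ X]

theorem state_le (T : X →L[ℝ] X) {x : X} {f : StrongDual ℝ X} (hx : ‖x‖ = 1) (hf : ‖f‖ = 1) :
    |f (T x)| ≤ ‖T‖ := by
  have h1 := f.le_opNorm (T x)
  have h2 := T.le_opNorm x
  rw [hf, one_mul, Real.norm_eq_abs] at h1
  rw [hx, mul_one] at h2
  linarith

theorem numRadius_bdd (T : X →L[ℝ] X) :
    BddAbove {t : ℝ | ∃ (x : X) (f : StrongDual ℝ X), ‖x‖ = 1 ∧ ‖f‖ = 1 ∧ f x = 1 ∧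
      t = |f (T x)|} := by
  refine ⟨‖T‖, ?_⟩
  rintro r ⟨x, f, hx, hf, -, rfl⟩
  exact state_le T hx hf

theorem numRadius_le (T : X →L[ℝ] X) : numRadius T ≤ ‖T‖ := by
  apply Real.sSup_le _ (norm_nonneg _)
  rintro r ⟨x, f, hx, hf, -, rfl⟩
  exact state_le T hx hf

theorem numRadius_nonneg (T : X →L[ℝ] X) : 0 ≤ numRadius T := by
  apply Real.sSup_nonneg
  rintro r ⟨x, f, -, -, -, rfl⟩
  exact abs_nonneg _

theorem le_numRadius (T : X →L[ℝ] X) {x : X} {f : StrongDual ℝ X} (hx : ‖x‖ = 1) (hf : ‖f‖ = 1)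
    (hfx : f x = 1) : |f (T x)| ≤ numRadius T :=
  le_csSup (numRadius_bdd T) ⟨x, f, hx, hf, hfx, rfl⟩

theorem numRadius_le_of (T : X →L[ℝ] X) {r : ℝ} (hr : 0 ≤ r)
    (h : ∀ (x : X) (f : StrongDual ℝ X), ‖x‖ = 1 → ‖f‖ = 1 → f x = 1 → |f (T x)| ≤ r) :
    numRadius T ≤ r := by
  apply Real.sSup_le _ hr
  rintro r ⟨x, f, hx, hf, hfx, rfl⟩
  exact h x f hx hf hfx

theorem index_one [Nontrivial X] (h : ∀ T : X →L[ℝ] X, ‖T‖ ≤ numRadius T) : numIndex X = 1 := by
  have : {t : ℝ | ∃ T : X →L[ℝ] X, ‖T‖ = 1 ∧ t = numRadius T} = {1} := by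
    ext t
    constructor
    · rintro ⟨T, hT, rfl⟩
      have h1 := h T
      have h2 := numRadius_le T
      simp only [Set.mem_singleton_iff]
      linarith
    · rintro rfl
      refine ⟨ContinuousLinearMap.id ℝ X, ContinuousLinearMap.norm_id, ?_⟩
      have h1 := h (ContinuousLinearMap.id ℝ X)
      have h2 := numRadius_le (ContinuousLinearMap.id ℝ X)
      rw [ContinuousLinearMap.norm_id] at h1 h2
      linarith
  unfold numIndex
  rw [this, csInf_singleton]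

theorem index_zero (T : X →L[ℝ] X) (hT : T ≠ 0)
    (h : ∀ (x : X) (f : StrongDual ℝ X), ‖x‖ = 1 → ‖f‖ = 1 → f x = 1 → f (T x) = 0) :
    numIndex X = 0 := by
  have hn : ‖T‖ ≠ 0 := norm_ne_zero_iff.2 hT
  have hmem : (0 : ℝ) ∈ {t : ℝ | ∃ T : X →L[ℝ] X, ‖T‖ = 1 ∧ t = numRadius T} := by
    refine ⟨‖T‖⁻¹ • T, ?_, ?_⟩
    · rw [norm_smul, norm_inv, norm_norm, inv_mul_cancel₀ hn]
    · apply le_antisymm (numRadius_nonneg _)
      apply numRadius_le_of _ le_rfl
      intro x f hx hf hfx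
      simp [h x f hx hf hfx]
  unfold numIndex
  apply le_antisymm
  · refine csInf_le ⟨0, ?_⟩ hmem
    rintro t ⟨S, -, rfl⟩
    exact numRadius_nonneg S
  · refine le_csInf ⟨0, hmem⟩ ?_
    rintro t ⟨S, -, rfl⟩
    exact numRadius_nonneg S

/-- If `t * a ≤ C * t ^ 2` for all real `t`, then `a = 0`. -/
theorem eq_zero_of_quad {a C : ℝ} (h : ∀ t : ℝ, t * a ≤ C * t ^ 2) : a = 0 := by
  by_contra ha
  have hC : 0 < |C| + 1 := by positivity
  have h1 := h (a / (|C| + 1))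
  have h2 : 0 < a ^ 2 := by positivity
  have h3 : C ≤ |C| := le_abs_self C
  have h4 : a / (|C| + 1) * a = a ^ 2 / (|C| + 1) := by ring
  have h5 : C * (a / (|C| + 1)) ^ 2 = (C / (|C| + 1)) * (a ^ 2 / (|C| + 1)) := by
    field_simp
  rw [h4, h5] at h1
  have h6 : C / (|C| + 1) < 1 := by
    rw [div_lt_one hC]; linarith
  have h7 : 0 < a ^ 2 / (|C| + 1) := by positivity
  nlinarith

/-- A skew operator has vanishing numerical range. -/
theorem index_zero_of_skew (T : X →L[ℝ] X) (hT : T ≠ 0) (C : ℝ)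
    (h : ∀ (t : ℝ) (x : X), ‖x + t • T x‖ ≤ (1 + C * t ^ 2) * ‖x‖) : numIndex X = 0 := by
  apply index_zero T hT
  intro x f hx hf hfx
  apply eq_zero_of_quad (C := C)
  intro t
  have h1 := f.le_opNorm (x + t • T x)
  have h2 := h t x
  rw [hf, one_mul, map_add, map_smul, hfx, Real.norm_eq_abs, smul_eq_mul] at h1
  rw [hx, mul_one] at h2
  have := le_abs_self (1 + t * f (T x))
  linarith

/-- A skew operator on the dual which is an adjoint. -/
theorem index_zero_of_skew_dual (T : StrongDual ℝ X →L[ℝ] StrongDual ℝ X) (hT : T ≠ 0)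
    (S : X →L[ℝ] X) (hS : ∀ f x, T f x = f (S x)) (C : ℝ)
    (h : ∀ (t : ℝ) (f : StrongDual ℝ X), ‖f + t • T f‖ ≤ (1 + C * t ^ 2) * ‖f‖) :
    numIndex X = 0 := by
  have hS0 : S ≠ 0 := by
    rintro rfl
    apply hT
    ext f x
    simp [hS]
  apply index_zero S hS0
  intro x f hx hf hfx
  apply eq_zero_of_quad (C := C)
  intro t
  have h1 := (f + t • T f).le_opNorm x
  have h2 := h t f
  rw [hx, mul_one, add_apply, smul_apply, hfx,
    Real.norm_eq_abs, smul_eq_mul, hS] at h1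
  rw [hf, mul_one] at h2
  have := le_abs_self (1 + t * f (S x))
  linarith

/-- Lumer's lower bound. -/
theorem low1 (T : X →L[ℝ] X) (α : ℝ) (w : X) :
    (1 - |α| * numRadius T) * ‖w‖ ≤ ‖w - α • T w‖ := by
  rcases eq_or_ne w 0 with rfl | hw
  · simp
  have hn : 0 < ‖w‖ := norm_pos_iff.2 hw
  obtain ⟨f, hf, hfw⟩ := exists_dual_vector ℝ w hn.ne'
  have hx : ‖‖w‖⁻¹ • w‖ = 1 := by
    rw [norm_smul, norm_inv, norm_norm, inv_mul_cancel₀ hn.ne']
  have hfx : f (‖w‖⁻¹ • w) = 1 := by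
    rw [map_smul, hfw]
    simp [hn.ne']
  have h1 := le_numRadius T hx hf hfx
  rw [map_smul, map_smul, smul_eq_mul, abs_mul, abs_inv, abs_norm] at h1
  have h2 : |f (T w)| ≤ numRadius T * ‖w‖ := by
    rw [inv_mul_le_iff₀ hn] at h1
    linarith
  have h3 := f.le_opNorm (w - α • T w)
  rw [hf, one_mul, map_sub, map_smul, hfw, Real.norm_eq_abs, smul_eq_mul] at h3
  have h4 := le_abs_self (‖w‖ - α * f (T w))
  have h5 : α * f (T w) ≤ |α| * (numRadius T * ‖w‖) := by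
    calc α * f (T w) ≤ |α * f (T w)| := le_abs_self _
      _ = |α| * |f (T w)| := abs_mul _ _
      _ ≤ _ := mul_le_mul_of_nonneg_left h2 (abs_nonneg _)
  simp only [RCLike.ofReal_real_eq_id, id_eq] at h3 h4
  nlinarith

theorem low2 (T : X →L[ℝ] X) (α : ℝ) (x : X) :
    (1 - |α| * numRadius T) * ‖x + α • T x‖ ≤ (1 + α ^ 2 * ‖T‖ ^ 2) * ‖x‖ := by
  have h1 := low1 T α (x + α • T x)
  have h2 : x + α • T x - α • T (x + α • T x) = x - (α ^ 2) • T (T x) := by
    rw [map_add, map_smul, smul_add, smul_smul, pow_two]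
    abel
  rw [h2] at h1
  refine h1.trans ((norm_sub_le _ _).trans ?_)
  rw [norm_smul, Real.norm_eq_abs, abs_of_nonneg (sq_nonneg α)]
  have h3 : ‖T (T x)‖ ≤ ‖T‖ ^ 2 * ‖x‖ := by
    calc ‖T (T x)‖ ≤ ‖T‖ * ‖T x‖ := T.le_opNorm _
      _ ≤ ‖T‖ * (‖T‖ * ‖x‖) := mul_le_mul_of_nonneg_left (T.le_opNorm _) (norm_nonneg _)
      _ = _ := by ring
  have := mul_le_mul_of_nonneg_left h3 (sq_nonneg α)
  nlinarith

/-- The numerical radius of the adjoint is at most that of the operator. -/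
theorem numRadius_adjoint_le (S : X →L[ℝ] X) (T : StrongDual ℝ X →L[ℝ] StrongDual ℝ X)
    (hS : ∀ f x, T f x = f (S x)) : numRadius T ≤ numRadius S := by
  apply numRadius_le_of _ (numRadius_nonneg S)
  intro g Φ hg hΦ hΦg
  set v := numRadius S with hv
  have hv0 : 0 ≤ v := numRadius_nonneg S
  have key : ∀ α : ℝ, |α| * v < 1 →
      (1 - |α| * v) * (1 + α * Φ (T g)) ≤ 1 + α ^ 2 * ‖S‖ ^ 2 := by
    intro α hα
    have hpos : 0 < 1 - |α| * v := by linarith
    have h1 : ‖g + α • T g‖ ≤ (1 + α ^ 2 * ‖S‖ ^ 2) / (1 - |α| * v) := by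
      apply ContinuousLinearMap.opNorm_le_bound _ (by positivity)
      intro x
      have e : (g + α • T g) x = g (x + α • S x) := by
        simp [hS]
      rw [e]
      have h2 := g.le_opNorm (x + α • S x)
      rw [hg, one_mul] at h2
      refine h2.trans ?_
      rw [div_mul_eq_mul_div, le_div_iff₀ hpos, mul_comm]
      exact low2 S α x
    have h2 := Φ.le_opNorm (g + α • T g)
    rw [hΦ, one_mul, map_add, map_smul, hΦg, smul_eq_mul, Real.norm_eq_abs] at h2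
    have h3 := (le_abs_self _).trans (h2.trans h1)
    rw [le_div_iff₀ hpos] at h3
    linarith
  set a := Φ (T g) with ha
  by_contra hcon
  push Not at hcon
  -- choose a small `α` with the sign of `a`
  set K := ‖S‖ ^ 2 + |a| * v + v + 1 with hK
  have hK0 : 0 < K := by positivity
  set δ := min ((|a| - v) / (2 * K)) (1 / (2 * K)) with hδ
  have hδ0 : 0 < δ := lt_min (by apply div_pos <;> linarith) (by positivity)
  have hδ1 : δ * K ≤ (|a| - v) / 2 := by
    have : δ ≤ (|a| - v) / (2 * K) := min_le_left _ _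
    rw [le_div_iff₀ (by positivity)] at this
    linarith
  have hδ2 : δ * K ≤ 1 / 2 := by
    have : δ ≤ 1 / (2 * K) := min_le_right _ _
    rw [le_div_iff₀ (by positivity)] at this
    linarith
  have hav : 0 ≤ |a| * v := by positivity
  have hS2 : 0 ≤ ‖S‖ ^ 2 := by positivity
  have hδv : δ * v < 1 := by nlinarith
  have fin : (1 - δ * v) * (1 + δ * |a|) ≤ 1 + δ ^ 2 * ‖S‖ ^ 2 := by
    rcases le_total 0 a with h | h
    · have := key δ (by rwa [abs_of_pos hδ0])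
      rwa [abs_of_pos hδ0, ← abs_of_nonneg h] at this
    · have := key (-δ) (by rwa [abs_neg, abs_of_pos hδ0])
      rw [abs_neg, abs_of_pos hδ0, neg_sq] at this
      rw [abs_of_nonpos h]
      linarith
  have : δ * (|a| - v) ≤ δ * (δ * (‖S‖ ^ 2 + |a| * v)) := by nlinarith
  have h2 := le_of_mul_le_mul_left this hδ0
  nlinarith

theorem index_one_predual (h : ∀ T : StrongDual ℝ X →L[ℝ] StrongDual ℝ X, ‖T‖ ≤ numRadius T)
    (S : X →L[ℝ] X) : ‖S‖ ≤ numRadius S := by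
  let T : StrongDual ℝ X →L[ℝ] StrongDual ℝ X :=
    ((ContinuousLinearMap.compL ℝ X X ℝ).flip S)
  have hT : ∀ f x, T f x = f (S x) := fun f x => rfl
  refine le_trans ?_ ((h T).trans (numRadius_adjoint_le S T hT))
  apply ContinuousLinearMap.opNorm_le_bound _ T.opNorm_nonneg
  intro x
  have hT0 := T.opNorm_nonneg
  apply NormedSpace.norm_le_dual_bound ℝ _ (by positivity)
  intro f
  rw [← hT]
  calc ‖T f x‖ ≤ ‖T f‖ * ‖x‖ := (T f).le_opNorm x
    _ ≤ ‖T‖ * ‖f‖ * ‖x‖ := mul_le_mul_of_nonneg_right (T.le_opNorm f) (norm_nonneg _)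
    _ = _ := by ring

end Pool.Agent.H786Z.NI
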