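import Mathlib

open Filter Topology

namespace Pool.Agent.H786Z.NI

variable {B : Type*} [CStarAlgebra B] [PartialOrder B] [StarOrderedRing B]

theorem norm_le_of_le {x : B} {r : ℝ} (hr : 0 ≤ r) (h1 : -(algebraMap ℝ B r) ≤ x)
    (h2 : x ≤ algebraMap ℝ B r) : ‖x‖ ≤ r := by
  have hsa : IsSelfAdjoint x := by
    have h3 : IsSelfAdjoint (algebraMap ℝ B r - x) := .of_nonneg (sub_nonneg.2 h2)
    have h4 : IsSelfAdjoint (algebraMap ℝ B r) := (IsSelfAdjoint.all r).algebraMap B
    simpa using h4.sub h3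
  rw [← map_neg, algebraMap_le_iff_le_spectrum] at h1
  rw [le_algebraMap_iff_spectrum_le] at h2
  rw [← cfc_id' ℝ x]
  apply norm_cfc_le hr
  intro t ht
  rw [Real.norm_eq_abs, abs_le]
  exact ⟨h1 t ht, h2 t ht⟩

theorem algebraMap_mono' {r s : ℝ} (h : r ≤ s) : algebraMap ℝ B r ≤ algebraMap ℝ B s := by
  rw [← sub_nonneg, ← map_sub, Algebra.algebraMap_eq_smul_one]
  exact smul_nonneg (sub_nonneg.2 h) zero_le_one

theorem le_of_norm_le {x : B} (hx : IsSelfAdjoint x) {r : ℝ} (h : ‖x‖ ≤ r) :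
    x ≤ algebraMap ℝ B r :=
  hx.le_algebraMap_norm_self.trans (algebraMap_mono' h)

theorem neg_le_of_norm_le {x : B} (hx : IsSelfAdjoint x) {r : ℝ} (h : ‖x‖ ≤ r) :
    -algebraMap ℝ B r ≤ x := by
  rw [neg_le]
  exact le_of_norm_le hx.neg (by rwa [norm_neg])

theorem norm_le_of_star_mul_le {x : B} {r : ℝ} (hr : 0 ≤ r)
    (h : star x * x ≤ algebraMap ℝ B (r ^ 2)) : ‖x‖ ≤ r := by
  rw [← CStarAlgebra.norm_le_iff_le_algebraMap _ (by positivity) (star_mul_self_nonneg x),
    CStarRing.norm_star_mul_self, ← pow_two] at h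
  exact (abs_le_of_sq_le_sq' h hr).2

omit [PartialOrder B] [StarOrderedRing B] in
theorem norm_one_add_skew {y : B} (hy : star y = -y) : ‖1 + y‖ ≤ 1 + ‖y‖ ^ 2 := by
  have h1 : ‖(1 : B)‖ ≤ 1 := (IsStarProjection.one B).norm_le
  have h2 : ‖1 + y‖ * ‖1 + y‖ = ‖1 - y * y‖ := by
    rw [← CStarRing.norm_star_mul_self, star_add, star_one, hy]
    congr 1
    noncomm_ring
  have h3 : ‖1 - y * y‖ ≤ 1 + ‖y‖ ^ 2 := by
    refine (norm_sub_le _ _).trans (add_le_add h1 ?_)
    rw [pow_two]; exact norm_mul_le _ _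
  nlinarith [norm_nonneg (1 + y), sq_nonneg ‖y‖]

omit [PartialOrder B] [StarOrderedRing B] in
theorem skew_left {k : B} (hk : star k = -k) (t : ℝ) (x : B) :
    ‖x + t • (k * x)‖ ≤ (1 + ‖k‖ ^ 2 * t ^ 2) * ‖x‖ := by
  have h1 := norm_one_add_skew (y := t • k) (by rw [star_smul, hk]; simp)
  rw [norm_smul, mul_pow, Real.norm_eq_abs, sq_abs] at h1
  have e : x + t • (k * x) = (1 + t • k) * x := by rw [add_mul, one_mul, smul_mul_assoc]
  rw [e]
  refine (norm_mul_le _ _).trans (mul_le_mul_of_nonneg_right ?_ (norm_nonneg _))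
  linarith

omit [PartialOrder B] [StarOrderedRing B] in
theorem skew_both {k : B} (hk : star k = -k) (t : ℝ) (x : B) :
    ‖x + t • (k * x + x * k)‖ ≤ (1 + (2 * ‖k‖ ^ 2) * t ^ 2) * ‖x‖ := by
  have h0 : star (t • k) = -(t • k) := by rw [star_smul, hk]; simp
  set y := t • k with hy
  have hn : ‖y‖ ^ 2 = ‖k‖ ^ 2 * t ^ 2 := by
    rw [hy, norm_smul, mul_pow, Real.norm_eq_abs, sq_abs, mul_comm]
  have h1 : ‖(1 : B)‖ ≤ 1 := (IsStarProjection.one B).norm_le
  have h2 : ‖1 + y‖ * ‖1 + y‖ = ‖1 - y * y‖ := by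
    rw [← CStarRing.norm_star_mul_self, star_add, star_one, h0]
    congr 1
    noncomm_ring
  have h3 : ‖1 - y * y‖ ≤ 1 + ‖y‖ ^ 2 := by
    refine (norm_sub_le _ _).trans (add_le_add h1 ?_)
    rw [pow_two]; exact norm_mul_le _ _
  have e : x + t • (k * x + x * k) = (1 + y) * x * (1 + y) - y * x * y := by
    rw [smul_add, ← smul_mul_assoc, ← mul_smul_comm, ← hy]
    noncomm_ring
  rw [e]
  refine (norm_sub_le _ _).trans ?_
  have h4 : ‖(1 + y) * x * (1 + y)‖ ≤ ‖1 + y‖ * ‖x‖ * ‖1 + y‖ := norm_mul₃_le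
  have h5 : ‖y * x * y‖ ≤ ‖y‖ * ‖x‖ * ‖y‖ := norm_mul₃_le
  have h6 : ‖1 + y‖ * ‖x‖ * ‖1 + y‖ ≤ (1 + ‖y‖ ^ 2) * ‖x‖ := by
    rw [mul_right_comm, h2]
    exact mul_le_mul_of_nonneg_right h3 (norm_nonneg _)
  have h7 : ‖y‖ * ‖x‖ * ‖y‖ = ‖y‖ ^ 2 * ‖x‖ := by ring
  rw [hn] at h6 h7
  nlinarith

omit [PartialOrder B] [StarOrderedRing B] in
theorem pyth_of_cross {x y : B} (h : star x * y + star y * x = 0) :
    ‖x + y‖ ^ 2 ≤ ‖x‖ ^ 2 + ‖y‖ ^ 2 := by
  simp only [pow_two, ← CStarRing.norm_star_mul_self]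
  have e : star (x + y) * (x + y) = star x * x + star y * y + (star x * y + star y * x) := by
    rw [star_add]; noncomm_ring
  rw [e, h, add_zero]
  exact norm_add_le _ _

/-- A real C*-algebra whose unit ball has an extreme point has a unit. -/
theorem exists_unit (S : NonUnitalStarSubalgebra ℝ B) (e : B) (he : e ∈ S) (he1 : ‖e‖ ≤ 1)
    (hext : ∀ y ∈ S, ‖e + y‖ ≤ 1 → ‖e - y‖ ≤ 1 → y = 0) :
    ∃ u ∈ S, (∀ x ∈ S, u * x = x) ∧ ∀ x ∈ S, x * u = x := by
  set p := star e * e with hp
  set q := e * star e with hq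
  have hpS : p ∈ S := mul_mem (star_mem he) he
  have hqS : q ∈ S := mul_mem he (star_mem he)
  have hp0 : 0 ≤ p := star_mul_self_nonneg e
  have hpn : ‖p‖ ≤ 1 := by
    rw [hp, CStarRing.norm_star_mul_self]
    nlinarith [norm_nonneg e]
  have hp1 : p ≤ 1 := (CStarAlgebra.norm_le_one_iff_of_nonneg p hp0).1 hpn
  have hpsa : star p = p := (IsSelfAdjoint.of_nonneg hp0).star_eq
  have hqsa : star q = q := by rw [hq, star_mul, star_star]
  have hep : e * p = e := by
    have h0 := hext ((1 / 2 : ℝ) • (e - e * p)) 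
      (SMulMemClass.smul_mem _ (sub_mem he (mul_mem he hpS))) ?_ ?_
    · rw [smul_eq_zero, sub_eq_zero] at h0
      rcases h0 with h0 | h0
      · norm_num at h0
      · exact h0.symm
    · have e1 : e + (1 / 2 : ℝ) • (e - e * p) = (1 / 2 : ℝ) • (e * (3 - p)) := by
        rw [mul_sub, show e * 3 = (3 : ℝ) • e by
          rw [show (3 : B) = 1 + 1 + 1 by norm_num, show (3 : ℝ) = 1 + 1 + 1 by norm_num]
          simp only [mul_add, mul_one, add_smul, one_smul]]
        module
      have h2 : ‖e * (3 - p)‖ ≤ 2 := by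
        apply norm_le_of_star_mul_le (by norm_num)
        rw [← sub_nonneg]
        have e2 : algebraMap ℝ B (2 ^ 2) - star (e * (3 - p)) * (e * (3 - p)) =
            (1 - p) * (4 - p) * (1 - p) := by
          rw [show ((2 : ℝ) ^ 2) = 4 by norm_num, map_ofNat, star_mul, star_sub, hpsa, star_ofNat,
            show (3 - p) * star e * (e * (3 - p)) = (3 - p) * p * (3 - p) by
              simp only [hp, mul_assoc]]
          rw [show (4 : B) = 1 + 1 + 1 + 1 by norm_num, show (3 : B) = 1 + 1 + 1 by norm_num]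
          noncomm_ring
        rw [e2]
        have h4 : (0 : B) ≤ 4 - p := by
          rw [show (4 : B) - p = 1 + 1 + 1 + (1 - p) by
            rw [show (4 : B) = 1 + 1 + 1 + 1 by norm_num]; abel]
          exact add_nonneg (add_nonneg (add_nonneg zero_le_one zero_le_one) zero_le_one)
            (sub_nonneg.2 hp1)
        exact conjugate_nonneg_of_nonneg h4 (sub_nonneg.2 hp1)
      rw [e1, norm_smul]
      norm_num
      linarith
    · have e1 : e - (1 / 2 : ℝ) • (e - e * p) = (1 / 2 : ℝ) • (e + e * p) := by module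
      have h2 : ‖e + e * p‖ ≤ 2 := by
        refine (norm_add_le _ _).trans ?_
        have := norm_mul_le e p
        nlinarith [norm_nonneg e, norm_nonneg p]
      rw [e1, norm_smul]
      norm_num
      linarith
  have hqe : q * e = e := by rw [hq, mul_assoc, ← hp, hep]
  have hpp : p * p = p := by
    conv_lhs => rw [hp, mul_assoc, ← hp, hep]
  have hqq : q * q = q := by
    conv_lhs => rw [hq, ← mul_assoc, ← hq, hqe]
  have heq : star e * q = star e := by
    have := congrArg star hqe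
    rwa [star_mul, hqsa] at this
  have hqproj : IsStarProjection q := ⟨hqq, hqsa⟩
  have hpproj : IsStarProjection p := ⟨hpp, hpsa⟩
  have key1 : ∀ x ∈ S, ‖x‖ ≤ 1 → (1 - q) * x * (1 - p) = 0 := by
    intro x hx hx1
    set w := (1 - q) * x with hw
    have hwn : ‖w‖ ≤ 1 := by
      have h1 := norm_mul_le (1 - q) x
      have h2 : ‖1 - q‖ ≤ 1 := hqproj.one_sub.norm_le
      nlinarith [norm_nonneg x, norm_nonneg (1 - q)]
    have hy : star (w * (1 - p)) * (w * (1 - p)) ≤ 1 - p := by
      have h1 : star w * w ≤ 1 := by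
        refine CStarAlgebra.star_mul_le_algebraMap_norm_sq.trans ?_
        rw [← map_one (algebraMap ℝ B)]
        exact algebraMap_mono' (by nlinarith [norm_nonneg w])
      have h2 := star_left_conjugate_le_conjugate h1 (1 - p)
      rw [mul_one, hpproj.one_sub.isSelfAdjoint.star_eq, hpproj.one_sub.isIdempotentElem.eq] at h2
      rw [star_mul, hpproj.one_sub.isSelfAdjoint.star_eq]
      simpa only [mul_assoc] using h2
    have hey : star e * (w * (1 - p)) = 0 := by
      rw [hw, ← mul_assoc, ← mul_assoc, mul_sub (star e), mul_one, heq, sub_self, zero_mul,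
        zero_mul]
    have hye : star (w * (1 - p)) * e = 0 := by
      have := congrArg star hey
      rwa [star_mul, star_star, star_zero] at this
    have hmem : w * (1 - p) ∈ S := by
      have hwS : w ∈ S := by
        rw [hw, sub_mul, one_mul]; exact sub_mem hx (mul_mem hqS hx)
      rw [mul_sub, mul_one]; exact sub_mem hwS (mul_mem hwS hpS)
    generalize w * (1 - p) = y at hy hey hye hmem
    apply hext _ hmem
    · apply norm_le_of_star_mul_le zero_le_one
      rw [star_add, add_mul, mul_add, mul_add, hey, hye, ← hp, one_pow, map_one, add_zero,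
        zero_add]
      exact le_sub_iff_add_le'.1 hy
    · apply norm_le_of_star_mul_le zero_le_one
      rw [star_sub, sub_mul, mul_sub, mul_sub, hey, hye, ← hp, one_pow, map_one, sub_zero,
        zero_sub, sub_neg_eq_add]
      exact le_sub_iff_add_le'.1 hy
  have key : ∀ x ∈ S, (1 - q) * x * (1 - p) = 0 := by
    intro x hx
    rcases eq_or_ne x 0 with rfl | h0
    · simp
    have hn : ‖x‖ ≠ 0 := norm_ne_zero_iff.2 h0
    have := key1 (‖x‖⁻¹ • x) (SMulMemClass.smul_mem _ hx) (by
      rw [norm_smul, norm_inv, norm_norm, inv_mul_cancel₀ hn])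
    rw [mul_smul_comm, smul_mul_assoc, smul_eq_zero] at this
    exact this.resolve_left (inv_ne_zero hn)
  have sp : star (1 - p) = 1 - p := hpproj.one_sub.isSelfAdjoint.star_eq
  have sq : star (1 - q) = 1 - q := hqproj.one_sub.isSelfAdjoint.star_eq
  refine ⟨p + q - q * p, sub_mem (add_mem hpS hqS) (mul_mem hqS hpS), fun x hx => ?_,
    fun x hx => ?_⟩
  · have h1 : (1 - q) * (1 - p) * x = 0 := by
      rw [← CStarRing.mul_star_self_eq_zero_iff, star_mul, star_mul, sp, sq]
      have hm : (1 - p) * (x * star x) ∈ S := by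
        rw [sub_mul, one_mul]
        exact sub_mem (mul_mem hx (star_mem hx)) (mul_mem hpS (mul_mem hx (star_mem hx)))
      have := key _ hm
      calc _ = ((1 - q) * ((1 - p) * (x * star x)) * (1 - p)) * (1 - q) := by
            simp only [mul_assoc]
        _ = 0 := by rw [this, zero_mul]
    calc (p + q - q * p) * x = x - (1 - q) * (1 - p) * x := by noncomm_ring
      _ = x := by rw [h1, sub_zero]
  · have h1 : x * ((1 - q) * (1 - p)) = 0 := by
      rw [← CStarRing.star_mul_self_eq_zero_iff, star_mul, star_mul, sp, sq]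
      have hm : (star x * x) * (1 - q) ∈ S := by
        rw [mul_sub, mul_one]
        exact sub_mem (mul_mem (star_mem hx) hx) (mul_mem (mul_mem (star_mem hx) hx) hqS)
      have := key _ hm
      calc _ = (1 - p) * ((1 - q) * ((star x * x) * (1 - q)) * (1 - p)) := by
            simp only [mul_assoc]
        _ = 0 := by rw [this, mul_zero]
    calc x * (p + q - q * p) = x - x * ((1 - q) * (1 - p)) := by noncomm_ring
      _ = x := by rw [h1, sub_zero]

end Pool.Agent.H786Z.NI
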