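import Pool.Agent.H786Z.NI.CStar1

open Filter Topology

namespace Pool.Agent.H786Z.NI

variable {B : Type*} [CStarAlgebra B] [PartialOrder B] [StarOrderedRing B]

/-- `u` is a unit of `S`. -/
structure IsUnitOf (S : NonUnitalStarSubalgebra ℝ B) (u : B) : Prop where
  mem : u ∈ S
  left : ∀ x ∈ S, u * x = x
  right : ∀ x ∈ S, x * u = x

/-- The compactness property inherited from a predual. -/
def Cluster (S : NonUnitalStarSubalgebra ℝ B) : Prop :=
  ∀ (c : ℕ → B) (R : ℝ), (∀ n, c n ∈ S) → (∀ n, ‖c n‖ ≤ R) →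
    ∃ z ∈ S, ∀ d ∈ S, ∀ r : ℝ, (∀ᶠ n in atTop, ‖c n - d‖ ≤ r) → ‖z - d‖ ≤ r

variable {S : NonUnitalStarSubalgebra ℝ B} {u : B}

omit [PartialOrder B] [StarOrderedRing B] in
theorem IsUnitOf.star_eq (hu : IsUnitOf S u) : star u = u := by
  have h1 := hu.left _ (star_mem hu.mem)
  have h2 := congrArg star h1
  rw [star_mul, star_star] at h2
  rw [← h1, h2]

omit [PartialOrder B] [StarOrderedRing B] in
theorem IsUnitOf.proj (hu : IsUnitOf S u) : IsStarProjection u :=
  ⟨hu.left _ hu.mem, hu.star_eq⟩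

theorem IsUnitOf.le_smul (hu : IsUnitOf S u) {x : B} (hx : x ∈ S) {r : ℝ}
    (h : x ≤ algebraMap ℝ B r) : x ≤ r • u := by
  have := hu.proj.isSelfAdjoint.conjugate_le_conjugate h
  rwa [hu.left x hx, hu.right x hx, Algebra.algebraMap_eq_smul_one, mul_smul_comm, mul_one,
    smul_mul_assoc, hu.left _ hu.mem] at this

theorem IsUnitOf.smul_le (hu : IsUnitOf S u) {r : ℝ} (hr : 0 ≤ r) :
    r • u ≤ algebraMap ℝ B r := by
  rw [Algebra.algebraMap_eq_smul_one]
  exact smul_le_smul_of_nonneg_left hu.proj.le_one hr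

theorem IsUnitOf.smul_nonneg' (hu : IsUnitOf S u) {r : ℝ} (hr : 0 ≤ r) : 0 ≤ r • u :=
  smul_nonneg hr hu.proj.nonneg

theorem exists_sup (hu : IsUnitOf S u) (hcl : Cluster S) (c : ℕ → B) (R : ℝ)
    (hc : ∀ n, c n ∈ S) (hsa : ∀ n, IsSelfAdjoint (c n)) (hR : ∀ n, ‖c n‖ ≤ R) :
    ∃ p ∈ S, IsSelfAdjoint p ∧ ∀ d ∈ S, IsSelfAdjoint d →
      ((∀ᶠ n in atTop, d ≤ c n) → d ≤ p) ∧ ((∀ᶠ n in atTop, c n ≤ d) → p ≤ d) := by
  obtain ⟨z, hz, hz2⟩ := hcl c R hc hR
  set p := (1 / 2 : ℝ) • (z + star z) with hp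
  have hpS : p ∈ S := SMulMemClass.smul_mem _ (add_mem hz (star_mem hz))
  have hpsa : IsSelfAdjoint p := (IsSelfAdjoint.all _).smul (IsSelfAdjoint.add_star_self z)
  have key : ∀ d ∈ S, IsSelfAdjoint d → ∀ r : ℝ, (∀ᶠ n in atTop, ‖c n - d‖ ≤ r) →
      ‖p - d‖ ≤ r := by
    intro d hd hdsa r h
    have h1 := hz2 d hd r h
    have e : p - d = (1 / 2 : ℝ) • ((z - d) + star (z - d)) := by
      rw [star_sub, hdsa.star_eq, hp]; module
    have h2 := norm_add_le (z - d) (star (z - d))
    rw [norm_star] at h2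
    rw [e, norm_smul, Real.norm_of_nonneg (by norm_num)]
    linarith
  refine ⟨p, hpS, hpsa, fun d hd hdsa => ?_⟩
  set r := R + ‖d‖ with hr
  have hR0 : 0 ≤ R := (norm_nonneg _).trans (hR 0)
  have hr0 : 0 ≤ r := by positivity
  have hn : ∀ n, ‖c n - d‖ ≤ r := fun n => (norm_sub_le _ _).trans (by linarith [hR n])
  have husa : IsSelfAdjoint (r • u) := (IsSelfAdjoint.all _).smul hu.proj.isSelfAdjoint
  have huS : r • u ∈ S := SMulMemClass.smul_mem _ hu.mem
  have hu1 := hu.smul_le hr0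
  have hu0 := hu.smul_nonneg' hr0
  constructor
  · intro h
    have h1 := key (d + r • u) (add_mem hd huS) (hdsa.add husa) r (by
      filter_upwards [h] with n hn'
      apply norm_le_of_le hr0
      · calc -algebraMap ℝ B r ≤ -(r • u) := neg_le_neg hu1
          _ ≤ (c n - d) + -(r • u) := le_add_of_nonneg_left (sub_nonneg.2 hn')
          _ = _ := by abel
      · calc c n - (d + r • u) = (c n - d) - r • u := by abel
          _ ≤ c n - d := sub_le_self _ hu0
          _ ≤ _ := le_of_norm_le ((hsa n).sub hdsa) (hn n))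
    rw [← norm_neg, neg_sub] at h1
    have h2 := hu.le_smul (sub_mem (add_mem hd huS) hpS)
      (le_of_norm_le ((hdsa.add husa).sub hpsa) h1)
    have h3 : d - p ≤ 0 := by
      calc d - p = d + r • u - p - r • u := by abel
        _ ≤ 0 := sub_nonpos.2 h2
    exact sub_nonpos.1 h3
  · intro h
    have h1 := key (d - r • u) (sub_mem hd huS) (hdsa.sub husa) r (by
      filter_upwards [h] with n hn'
      apply norm_le_of_le hr0
      · calc -algebraMap ℝ B r ≤ c n - d := neg_le_of_norm_le ((hsa n).sub hdsa) (hn n)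
          _ ≤ (c n - d) + r • u := le_add_of_nonneg_right hu0
          _ = _ := by abel
      · calc c n - (d - r • u) = (c n - d) + r • u := by abel
          _ ≤ r • u := add_le_of_nonpos_left (sub_nonpos.2 hn')
          _ ≤ _ := hu1)
    have h2 := hu.le_smul (sub_mem hpS (sub_mem hd huS))
      (le_of_norm_le (hpsa.sub (hdsa.sub husa)) h1)
    have h3 : p - d ≤ 0 := by
      calc p - d = p - (d - r • u) - r • u := by abel
        _ ≤ 0 := sub_nonpos.2 h2
    exact sub_nonpos.1 h3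

/-- Ramp functions. -/
noncomputable def ramp (n : ℕ) (t : ℝ) : ℝ := min 1 (max 0 (n * t))

theorem ramp_cont (n : ℕ) : Continuous (ramp n) := by unfold ramp; fun_prop

theorem ramp_zero (n : ℕ) : ramp n 0 = 0 := by simp [ramp]

theorem ramp_nonneg (n : ℕ) (t : ℝ) : 0 ≤ ramp n t := le_min zero_le_one (le_max_left _ _)

theorem ramp_le_one (n : ℕ) (t : ℝ) : ramp n t ≤ 1 := min_le_left _ _

theorem ramp_mono {m n : ℕ} (h : m ≤ n) (t : ℝ) : ramp m t ≤ ramp n t := by
  unfold ramp
  apply min_le_min_left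
  rcases le_total t 0 with ht | ht
  · apply max_le (le_max_left _ _)
    exact (mul_nonpos_of_nonneg_of_nonpos m.cast_nonneg ht).trans (le_max_left _ _)
  · exact max_le_max_left _ (mul_le_mul_of_nonneg_right (by exact_mod_cast h) ht)

theorem ramp_prod (n m : ℕ) (t : ℝ) :
    ramp n t * (1 - ramp (m + 1) t) * ramp n t ≤ n / (m + 1) := by
  have hm : (0 : ℝ) < m + 1 := by positivity
  have h0 := ramp_nonneg n t
  have h1 := ramp_le_one n t
  have h2 := ramp_nonneg (m + 1) t
  have h3 := ramp_le_one (m + 1) t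
  rcases le_total 1 (((m + 1 : ℕ) : ℝ) * t) with h | h
  · have : ramp (m + 1) t = 1 := min_eq_left (le_max_of_le_right h)
    rw [this, sub_self, mul_zero, zero_mul]
    positivity
  · have h4 : ramp n t ≤ n / (m + 1) := by
      refine (min_le_right _ _).trans (max_le (by positivity) ?_)
      push_cast at h
      rw [le_div_iff₀ hm]
      nlinarith [(n.cast_nonneg : (0 : ℝ) ≤ n)]
    calc ramp n t * (1 - ramp (m + 1) t) * ramp n t ≤ 1 * 1 * ramp n t := by
          apply mul_le_mul_of_nonneg_right _ h0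
          exact mul_le_mul h1 (by linarith) (by linarith) zero_le_one
      _ ≤ _ := by rwa [one_mul, one_mul]

theorem eq_zero_of_le_all {x : B} (hx : 0 ≤ x) (C : ℝ) (hC : 0 ≤ C)
    (h : ∀ m : ℕ, x ≤ algebraMap ℝ B (C / (m + 1))) : x = 0 := by
  rw [← norm_le_zero_iff]
  have h1 : ∀ m : ℕ, ‖x‖ ≤ C / (m + 1) := fun m =>
    (CStarAlgebra.norm_le_iff_le_algebraMap x (by positivity) hx).2 (h m)
  have h2 : Tendsto (fun m : ℕ => C / ((m : ℝ) + 1)) atTop (𝓝 0) := by
    simpa [div_eq_mul_inv] using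
      (tendsto_one_div_add_atTop_nhds_zero_nat (𝕜 := ℝ)).const_mul C
  exact ge_of_tendsto' h2 h1

theorem exists_proj (hS : IsClosed (S : Set B)) (hu : IsUnitOf S u) (hcl : Cluster S) {a : B}
    (ha : a ∈ S) (ha0 : 0 ≤ a) (ha1 : a ≤ u) :
    ∃ p ∈ S, IsStarProjection p ∧ 0 ≤ (2 : ℝ) • a - p ∧ (2 : ℝ) • a - p ≤ u := by
  set s := (2 : ℝ) • a - u with hs
  have hsS : s ∈ S := sub_mem (SMulMemClass.smul_mem _ ha) hu.mem
  have hssa : IsSelfAdjoint s :=
    ((IsSelfAdjoint.all _).smul (IsSelfAdjoint.of_nonneg ha0)).sub hu.proj.isSelfAdjoint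
  have hu1 : u ≤ 1 := hu.proj.le_one
  have hs1 : s ≤ algebraMap ℝ B 1 := by
    rw [map_one, hs, two_smul]
    calc a + a - u ≤ u + u - u := sub_le_sub_right (add_le_add ha1 ha1) _
      _ = u := by abel
      _ ≤ 1 := hu1
  have hs2 : algebraMap ℝ B (-1) ≤ s := by
    rw [map_neg, map_one, hs, two_smul]
    calc -1 ≤ -u := neg_le_neg hu1
      _ ≤ a + a + -u := le_add_of_nonneg_left (add_nonneg ha0 ha0)
      _ = _ := by abel
  rw [le_algebraMap_iff_spectrum_le] at hs1
  rw [algebraMap_le_iff_le_spectrum] at hs2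
  set c : ℕ → B := fun n => cfc (ramp n) s with hc
  have hcS : ∀ n, c n ∈ S := fun n => by
    rw [hc]
    dsimp only
    rw [← cfcₙ_eq_cfc (ramp_cont n).continuousOn (ramp_zero n)]
    exact cfcₙ_mem (𝕜' := ℝ) _ hsS
  have hc0 : ∀ n, 0 ≤ c n := fun n => cfc_nonneg fun t _ => ramp_nonneg n t
  have hc1 : ∀ n, c n ≤ 1 := fun n => cfc_le_one _ _ fun t _ => ramp_le_one n t
  have hcsa : ∀ n, IsSelfAdjoint (c n) := fun n => .of_nonneg (hc0 n)
  have hcn : ∀ n, ‖c n‖ ≤ 1 := fun n => (CStarAlgebra.norm_le_one_iff_of_nonneg _ (hc0 n)).2 (hc1 n)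
  have hmono : ∀ m n, m ≤ n → c m ≤ c n := fun m n h =>
    cfc_mono (fun t _ => ramp_mono h t) (ramp_cont m).continuousOn (ramp_cont n).continuousOn
  obtain ⟨p, hpS, hpsa, hp⟩ := exists_sup hu hcl c 1 hcS hcsa hcn
  have hcp : ∀ m, c m ≤ p := fun m => (hp _ (hcS m) (hcsa m)).1 (by
    filter_upwards [eventually_ge_atTop m] with n hn using hmono m n hn)
  have hp0 : 0 ≤ p := (hc0 0).trans (hcp 0)
  have hpu : p ≤ u := (hp _ hu.mem hu.proj.isSelfAdjoint).2 (Eventually.of_forall fun n => by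
    have := hu.le_smul (hcS n) (r := 1) (by rw [map_one]; exact hc1 n)
    rwa [one_smul] at this)
  have hp1 : p ≤ 1 := hpu.trans hu1
  have hsp : s ≤ p := by
    refine le_trans ?_ (hcp 1)
    rw [hc]
    dsimp only
    conv_lhs => rw [← cfc_id' ℝ s]
    apply cfc_mono _ (by fun_prop) (ramp_cont 1).continuousOn
    intro t ht
    unfold ramp
    exact le_min (hs1 t ht) (by simp)
  have hps : p ≤ u + s := by
    refine (hp _ (add_mem hu.mem hsS) (hu.proj.isSelfAdjoint.add hssa)).2
      (Eventually.of_forall fun n => ?_)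
    have h1 : c n ≤ 1 + s := by
      have e : 1 + s = cfc (fun t : ℝ => 1 + t) s := by
        rw [cfc_const_add _ _ _ (by fun_prop), cfc_id' ℝ s, map_one]
      rw [e]
      apply cfc_mono _ (ramp_cont n).continuousOn (by fun_prop)
      intro t ht
      rcases le_total t 0 with h | h
      · have : ramp n t = 0 := by
          unfold ramp
          rw [max_eq_left (mul_nonpos_of_nonneg_of_nonpos n.cast_nonneg h)]
          simp
        rw [this]; linarith [hs2 t ht]
      · linarith [ramp_le_one n t]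
    have h2 : c n - s ≤ algebraMap ℝ B 1 := by
      rw [map_one]; exact sub_le_iff_le_add.2 h1
    have h3 := hu.le_smul (sub_mem (hcS n) hsS) h2
    rw [one_smul] at h3
    exact sub_le_iff_le_add.1 h3
  have hpc : ∀ n, p * c n = c n := by
    intro n
    have h1 : c n * (1 - p) * c n = 0 := by
      apply eq_zero_of_le_all ((hcsa n).conjugate_nonneg (sub_nonneg.2 hp1)) n n.cast_nonneg
      intro m
      refine ((hcsa n).conjugate_le_conjugate (sub_le_sub_left (hcp (m + 1)) 1)).trans ?_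
      have e : c n * (1 - c (m + 1)) * c n =
          cfc (fun t => ramp n t * (1 - ramp (m + 1) t) * ramp n t) s := by
        have h1 := (ramp_cont n).continuousOn (s := spectrum ℝ s)
        have h2 := (ramp_cont (m + 1)).continuousOn (s := spectrum ℝ s)
        rw [cfc_mul _ _ _ (by fun_prop) h1, cfc_mul _ _ _ h1 (by fun_prop),
          cfc_sub _ _ _ (by fun_prop) h2, cfc_const_one ℝ s]
      rw [e]
      have h1 := ramp_cont n
      have h2 := ramp_cont (m + 1)
      exact cfc_le_algebraMap _ _ _ (fun t _ => ramp_prod n m t) (by fun_prop)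
    have h2 : (1 - p) * (1 - p) ≤ 1 - p := by
      rw [← sub_nonneg]
      have e : 1 - p - (1 - p) * (1 - p) = p * (1 - p) := by noncomm_ring
      rw [e]
      exact Commute.mul_nonneg hp0 (sub_nonneg.2 hp1) ((Commute.one_right p).sub_right rfl)
    have h3 : star ((1 - p) * c n) * ((1 - p) * c n) = 0 := by
      apply le_antisymm _ (star_mul_self_nonneg _)
      rw [← h1, star_mul, star_sub, star_one, hpsa.star_eq, (hcsa n).star_eq]
      have := (hcsa n).conjugate_le_conjugate h2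
      simpa only [mul_assoc] using this
    rw [CStarRing.star_mul_self_eq_zero_iff, sub_mul, one_mul, sub_eq_zero] at h3
    exact h3.symm
  have hpp : p * p = p := by
    apply le_antisymm
    · rw [← sub_nonneg]
      have e : p - p * p = p * (1 - p) := by noncomm_ring
      rw [e]
      exact Commute.mul_nonneg hp0 (sub_nonneg.2 hp1) ((Commute.one_right p).sub_right rfl)
    · refine (hp _ (mul_mem hpS hpS) ?_).2 (Eventually.of_forall fun n => ?_)
      · have := IsSelfAdjoint.star_mul_self p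
        rwa [hpsa.star_eq] at this
      · have h1 := hpsa.conjugate_le_conjugate (hc1 n)
        have h2 : c n * p = c n := by
          have := congrArg star (hpc n)
          rwa [star_mul, hpsa.star_eq, (hcsa n).star_eq] at this
        rwa [hpc, h2, mul_one] at h1
  refine ⟨p, hpS, ⟨hpp, hpsa⟩, ?_, ?_⟩
  · rw [sub_nonneg]
    convert hps using 1
    rw [hs]; abel
  · rw [sub_le_iff_le_add']
    rw [hs, sub_le_iff_le_add] at hsp
    exact hsp

theorem commute_of_proj (hS : IsClosed (S : Set B)) (hu : IsUnitOf S u) (hcl : Cluster S)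
    {x : B} (hx : x ∈ S) (h : ∀ p ∈ S, IsStarProjection p → p * x = x * p) {a : B} (ha : a ∈ S)
    (hsa : IsSelfAdjoint a) : a * x = x * a := by
  have key : ∀ n : ℕ, ∀ a ∈ S, 0 ≤ a → a ≤ u → ‖a * x - x * a‖ ≤ 2 * ‖x‖ * (1 / 2) ^ n := by
    intro n
    induction n with
    | zero =>
      intro a ha h0 h1
      have hn : ‖a‖ ≤ 1 :=
        (CStarAlgebra.norm_le_one_iff_of_nonneg _ h0).2 (h1.trans hu.proj.le_one)
      have h2 := norm_mul_le a x
      have h3 := norm_mul_le x a
      have h4 := norm_sub_le (a * x) (x * a)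
      rw [pow_zero]
      nlinarith [norm_nonneg x, norm_nonneg a]
    | succ n ih =>
      intro a ha h0 h1
      obtain ⟨p, hpS, hp, h2, h3⟩ := exists_proj hS hu hcl ha h0 h1
      have h4 := ih _ (sub_mem (SMulMemClass.smul_mem _ ha) hpS) h2 h3
      have e : ((2 : ℝ) • a - p) * x - x * ((2 : ℝ) • a - p) = (2 : ℝ) • (a * x - x * a) := by
        rw [sub_mul, mul_sub, h p hpS hp, smul_mul_assoc, mul_smul_comm, smul_sub]
        abel
      rw [e, norm_smul] at h4
      rw [pow_succ]
      norm_num at h4 ⊢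
      linarith
  have key2 : ∀ a ∈ S, 0 ≤ a → a ≤ u → a * x = x * a := by
    intro a ha h0 h1
    rw [← sub_eq_zero, ← norm_le_zero_iff]
    have h2 : Tendsto (fun n : ℕ => 2 * ‖x‖ * (1 / 2 : ℝ) ^ n) atTop (𝓝 0) := by
      simpa using (tendsto_pow_atTop_nhds_zero_of_lt_one (r := (1 / 2 : ℝ)) (by norm_num)
        (by norm_num)).const_mul (2 * ‖x‖)
    exact ge_of_tendsto' h2 fun n => key n a ha h0 h1
  set r := ‖a‖ + 1 with hr
  have hr0 : 0 < r := by positivity
  have h1 : a ≤ r • u := hu.le_smul ha (le_of_norm_le hsa (by linarith))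
  have h2 : -a ≤ r • u := hu.le_smul (neg_mem ha) (le_of_norm_le hsa.neg (by
    rw [norm_neg]; linarith))
  have h3 := key2 ((2 * r)⁻¹ • (a + r • u))
    (SMulMemClass.smul_mem _ (add_mem ha (SMulMemClass.smul_mem _ hu.mem)))
    (smul_nonneg (by positivity) (neg_le_iff_add_nonneg'.1 h2)) (by
      calc (2 * r)⁻¹ • (a + r • u) ≤ (2 * r)⁻¹ • (r • u + r • u) :=
            smul_le_smul_of_nonneg_left (add_le_add_left h1 _) (by positivity)
        _ = u := by
          rw [← add_smul, smul_smul, ← two_mul, inv_mul_cancel₀ (by positivity), one_smul])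
  rw [smul_mul_assoc, mul_smul_comm, add_mul, mul_add x, smul_mul_assoc, mul_smul_comm,
    hu.left x hx, hu.right x hx] at h3
  have h4 := smul_right_injective B (inv_ne_zero (by positivity : (2 * r) ≠ 0)) h3
  exact add_right_cancel h4

end Pool.Agent.H786Z.NI
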