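import Pool.Agent.H786Z.NI.CStar2

open Filter Topology

namespace Pool.Agent.H786Z.NI

variable {B : Type*} [CStarAlgebra B] [PartialOrder B] [StarOrderedRing B]

/-- A class of maps on `S` with the closure properties of weak-star continuous operators. -/
structure GoodClass (S : NonUnitalStarSubalgebra ℝ B) (W : (B → B) → Prop) : Prop where
  id : W fun x => x
  sub : ∀ f g, W f → W g → W fun x => f x - g x
  smul : ∀ (c : ℝ) f, W f → W fun x => c • f x
  comp : ∀ f g, W f → W g → W fun x => f (g x)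
  congr : ∀ f g, W f → (∀ x ∈ S, f x = g x) → W g
  pyth : ∀ P : B →L[ℝ] B, (∀ x ∈ S, P x ∈ S) →
    (∀ x ∈ S, ∀ y ∈ S, ‖P x + (y - P y)‖ ^ 2 ≤ ‖P x‖ ^ 2 + ‖y - P y‖ ^ 2) → W P

variable {S : NonUnitalStarSubalgebra ℝ B} {u : B} {W : (B → B) → Prop}

omit [PartialOrder B] [StarOrderedRing B] in
theorem GoodClass.left (hW : GoodClass S W) {p : B} (hpS : p ∈ S) (hp : IsStarProjection p) :
    W fun x => p * x := by
  refine hW.pyth (ContinuousLinearMap.mul ℝ B p) (fun x hx => mul_mem hpS hx) fun x _ y _ => ?_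
  apply pyth_of_cross
  simp only [ContinuousLinearMap.mul_apply']
  have h1 : star (p * x) * (y - p * y) = 0 := by
    rw [star_mul, hp.isSelfAdjoint.star_eq, mul_assoc, mul_sub, ← mul_assoc p p,
      hp.isIdempotentElem.eq, sub_self, mul_zero]
  have h2 := congrArg star h1
  rw [star_mul, star_star, star_zero] at h2
  rw [h1, h2, add_zero]

omit [PartialOrder B] [StarOrderedRing B] in
theorem GoodClass.reflect (hW : GoodClass S W) (hu : IsUnitOf S u)
    (hcen : ∀ a ∈ S, IsSelfAdjoint a → ∀ x ∈ S, a * x = x * a) {v : B} (hv : v ∈ S)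
    (h1 : star v * v = u) (h2 : v * star v = u) : W fun x => v * star x * v := by
  let θ : B →L[ℝ] B := (ContinuousLinearMap.mulLeftRight ℝ B v v).comp
    (starL' ℝ : B ≃L[ℝ] B).toContinuousLinearMap
  have hθ : ∀ x, θ x = v * star x * v := fun x => rfl
  let P : B →L[ℝ] B := (1 / 2 : ℝ) • (ContinuousLinearMap.id ℝ B + θ)
  have hP : ∀ x, P x = (1 / 2 : ℝ) • (x + v * star x * v) := fun x => rfl
  have hθS : ∀ x ∈ S, v * star x * v ∈ S := fun x hx => mul_mem (mul_mem hv (star_mem hx)) hv
  have hWP : W P := by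
    refine hW.pyth P (fun x hx => ?_) fun x hx y hy => ?_
    · rw [hP]; exact SMulMemClass.smul_mem _ (add_mem hx (hθS x hx))
    · apply pyth_of_cross
      set a := star v * x + star x * v with ha
      set b := star v * y - star y * v with hb
      have haS : a ∈ S := add_mem (mul_mem (star_mem hv) hx) (mul_mem (star_mem hx) hv)
      have hbS : b ∈ S := sub_mem (mul_mem (star_mem hv) hy) (mul_mem (star_mem hy) hv)
      have hasa : star a = a := by
        rw [ha, star_add, star_mul, star_mul, star_star, star_star, add_comm]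
      have hbsk : star b = -b := by
        rw [hb, star_sub, star_mul, star_mul, star_star, star_star, neg_sub]
      have e1 : P x = (1 / 2 : ℝ) • (v * a) := by
        rw [hP, ha, mul_add, ← mul_assoc, h2, hu.left x hx, mul_assoc]
      have e2 : y - P y = (1 / 2 : ℝ) • (v * b) := by
        rw [hP, hb, mul_sub, ← mul_assoc, h2, hu.left y hy, mul_assoc]
        module
      have e3 : star (v * a) * (v * b) = a * b := by
        rw [star_mul, hasa, mul_assoc, ← mul_assoc (star v), h1, hu.left b hbS]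
      have e4 : star (v * b) * (v * a) = -(a * b) := by
        rw [star_mul, hbsk, mul_assoc, ← mul_assoc (star v), h1, hu.left a haS, neg_mul,
          hcen a haS hasa b hbS]
      rw [e1, e2, star_smul, star_smul, smul_mul_smul_comm, smul_mul_smul_comm, e3, e4, smul_neg,
        add_neg_cancel]
  refine hW.congr _ _ (hW.sub _ _ (hW.smul 2 _ hWP) hW.id) fun x _ => ?_
  rw [hP]
  module

theorem exists_skew (hS : IsClosed (S : Set B)) (hu : IsUnitOf S u) (hcl : Cluster S)
    (hW : GoodClass S W) (hk : ∃ a ∈ S, star a ≠ a) :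
    ∃ T : B → B, W T ∧ (∃ x ∈ S, T x ≠ 0) ∧
      ∃ C : ℝ, ∀ (t : ℝ) (x : B), ‖x + t • T x‖ ≤ (1 + C * t ^ 2) * ‖x‖ := by
  by_cases hpq : ∃ p ∈ S, ∃ q ∈ S, IsStarProjection p ∧ IsStarProjection q ∧ p * q ≠ q * p
  · obtain ⟨p, hpS, q, hqS, hp, hq, hne⟩ := hpq
    refine ⟨fun x => (p * q - q * p) * x, ?_, ⟨u, hu.mem, ?_⟩, _, skew_left ?_⟩
    · refine hW.congr _ _ (hW.sub _ _ (hW.comp _ _ (hW.left hpS hp) (hW.left hqS hq))
        (hW.comp _ _ (hW.left hqS hq) (hW.left hpS hp))) fun x _ => ?_
      simp only [sub_mul, mul_assoc]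
    · dsimp only
      rw [hu.right _ (sub_mem (mul_mem hpS hqS) (mul_mem hqS hpS))]
      exact sub_ne_zero.2 hne
    · rw [star_sub, star_mul, star_mul, hp.isSelfAdjoint.star_eq, hq.isSelfAdjoint.star_eq,
        neg_sub]
  push Not at hpq
  have h1 : ∀ q ∈ S, IsStarProjection q → ∀ a ∈ S, IsSelfAdjoint a → a * q = q * a :=
    fun q hqS hq a ha hsa =>
      commute_of_proj hS hu hcl hqS (fun p hpS hp => hpq p hpS q hqS hp hq) ha hsa
  have h2 : ∀ p ∈ S, IsStarProjection p → ∀ k ∈ S, star k = -k → p * k = k * p := by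
    intro p hpS hp k hk hsk
    have hpp : p * p = p := hp.isIdempotentElem.eq
    have h3 := h1 p hpS hp (p * k - k * p) (sub_mem (mul_mem hpS hk) (mul_mem hk hpS)) (by
      rw [IsSelfAdjoint, star_sub, star_mul, star_mul, hsk, hp.isSelfAdjoint.star_eq]
      noncomm_ring)
    rw [sub_mul, mul_sub, mul_assoc k, hpp, ← mul_assoc p p, hpp, ← mul_assoc] at h3
    have h4 := congrArg (fun z => p * z) h3
    simp only [mul_sub, ← mul_assoc, hpp, sub_self] at h4
    have h5 := congrArg (fun z => z * p) h3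
    simp only [sub_mul, mul_assoc, hpp, sub_self] at h5
    rw [← mul_assoc, sub_eq_zero] at h5
    rw [← h5]
    exact (sub_eq_zero.1 h4.symm)
  have h3 : ∀ x ∈ S, ∀ p ∈ S, IsStarProjection p → p * x = x * p := by
    intro x hx p hpS hp
    have e1 := h1 p hpS hp (x + star x) (add_mem hx (star_mem hx)) (IsSelfAdjoint.add_star_self x)
    have e2 := h2 p hpS hp (x - star x) (sub_mem hx (star_mem hx)) (by
      rw [star_sub, star_star, neg_sub])
    apply smul_right_injective B (two_ne_zero (α := ℝ))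
    dsimp only
    rw [two_smul, two_smul]
    calc p * x + p * x = p * (x + star x) + p * (x - star x) := by noncomm_ring
      _ = (x + star x) * p + (x - star x) * p := by rw [← e1, e2]
      _ = _ := by noncomm_ring
  have hcen : ∀ a ∈ S, IsSelfAdjoint a → ∀ x ∈ S, a * x = x * a := fun a ha hsa x hx =>
    commute_of_proj hS hu hcl hx (h3 x hx) ha hsa
  obtain ⟨a, haS, ha⟩ := hk
  have hn : 0 < ‖a - star a‖ := norm_pos_iff.2 (sub_ne_zero.2 ha.symm)
  set k := (2 * ‖a - star a‖)⁻¹ • (a - star a) with hk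
  have hkS : k ∈ S := SMulMemClass.smul_mem _ (sub_mem haS (star_mem haS))
  have hksk : star k = -k := by
    rw [hk, star_smul, star_sub, star_star, star_trivial, ← smul_neg, neg_sub]
  have hkn : ‖k‖ = 1 / 2 := by
    rw [hk, norm_smul, Real.norm_of_nonneg (by positivity)]
    field_simp
  clear_value k
  have hkk : star k * k = -(k * k) := by rw [hksk, neg_mul]
  have hc0 : 0 ≤ u + k * k := by
    have h4 : star k * k ≤ (1 : ℝ) • u := by
      apply hu.le_smul (mul_mem (star_mem hkS) hkS)
      refine CStarAlgebra.star_mul_le_algebraMap_norm_sq.trans (algebraMap_mono' ?_)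
      rw [hkn]; norm_num
    rw [one_smul, hkk] at h4
    exact neg_le_iff_add_nonneg.1 h4
  set s := CFC.sqrt (u + k * k) with hs
  have hsS : s ∈ S := by
    rw [hs, CFC.sqrt_eq_real_sqrt _ hc0]
    exact cfcₙ_mem (𝕜' := ℝ) _ (add_mem hu.mem (mul_mem hkS hkS))
  have hssa : IsSelfAdjoint s := .of_nonneg (CFC.sqrt_nonneg _)
  have hss : s * s = u + k * k := CFC.sqrt_mul_sqrt_self _ hc0
  clear_value s
  have hsk : s * k = k * s := hcen s hsS hssa k hkS
  have hv : star (s + k) = s - k := by rw [star_add, hssa.star_eq, hksk, sub_eq_add_neg]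
  have hv1 : star (s + k) * (s + k) = u := by
    rw [hv, sub_mul, mul_add, mul_add, hss, hsk]; abel
  have hv2 : (s + k) * star (s + k) = u := by
    rw [hv, add_mul, mul_sub, mul_sub, hss, hsk]; abel
  have w1 := hW.reflect hu hcen (add_mem hsS hkS) hv1 hv2
  have w2 := hW.reflect hu hcen hu.mem (by rw [hu.star_eq, hu.left _ hu.mem])
    (by rw [hu.star_eq, hu.left _ hu.mem])
  refine ⟨fun x => (s * k) * x + x * (s * k), ?_, ⟨u, hu.mem, ?_⟩, _, skew_both ?_⟩
  · refine hW.congr _ _ (hW.smul (1 / 2) _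
      (hW.sub _ _ (hW.comp _ _ w1 w2) (hW.comp _ _ w2 w1))) fun x hx => ?_
    have m1 : star x ∈ S := star_mem hx
    have m2 : star ((s + k) * star x * (s + k)) ∈ S :=
      star_mem (mul_mem (mul_mem (add_mem hsS hkS) m1) (add_mem hsS hkS))
    rw [hu.left _ m1, hu.right _ m1, hu.left _ m2, hu.right _ m2, star_star, star_mul, star_mul,
      star_star, hv]
    have e1 : s * x = x * s := hcen s hsS hssa x hx
    have e2 : (s + k) * x * (s + k) - (s - k) * (x * (s - k)) =
        (s * x * k + k * (x * s)) + (s * x * k + k * (x * s)) := by noncomm_ring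
    rw [e2, e1, ← e1, ← mul_assoc k, ← hsk, e1, mul_assoc x]
    module
  · dsimp only
    rw [hu.left _ (mul_mem hsS hkS), hu.right _ (mul_mem hsS hkS), ← two_smul ℝ]
    intro h0
    rw [smul_eq_zero] at h0
    have h5 : s * k = 0 := h0.resolve_left two_ne_zero
    have h6 : k = -(k * k * k) := by
      have : s * s * k = 0 := by rw [mul_assoc, h5, mul_zero]
      rw [hss, add_mul, hu.left k hkS] at this
      exact eq_neg_of_add_eq_zero_left this
    have h7 : ‖k‖ ≤ ‖k‖ * ‖k‖ * ‖k‖ := by
      conv_lhs => rw [h6, norm_neg]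
      exact norm_mul₃_le
    rw [hkn] at h7
    norm_num at h7
  · rw [star_mul, hssa.star_eq, hksk, neg_mul, hsk]

end Pool.Agent.H786Z.NI
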