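import Mathlib

namespace Pool.Agent.H786Z.NI

/-- The numerical radius `v(T) = sup {|f (T x)| : ‖x‖ = ‖f‖ = f x = 1}` of a bounded operator
on a real normed space. -/
noncomputable def numRadius {X : Type*} [NormedAddCommGroup X] [NormedSpace ℝ X]
    (T : X →L[ℝ] X) : ℝ :=
  sSup {t : ℝ | ∃ (x : X) (f : StrongDual ℝ X), ‖x‖ = 1 ∧ ‖f‖ = 1 ∧ f x = 1 ∧ t = |f (T x)|}

/-- The numerical index `n(X) = inf {v(T) : ‖T‖ = 1}` of a real normed space. -/
noncomputable def numIndex (X : Type*) [NormedAddCommGroup X] [NormedSpace ℝ X] : ℝ :=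
  sInf {t : ℝ | ∃ T : X →L[ℝ] X, ‖T‖ = 1 ∧ t = numRadius T}

end Pool.Agent.H786Z.NI
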