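import Pool.Agent.H786Z.NI.Basic

open Filter Topology

namespace Pool.Agent.H786Z.NI

variable {Z : Type*} [NormedAddCommGroup Z] [NormedSpace ℝ Z]

theorem peak_bound (n : ℕ) (s : ℝ) (hs : |s| ≤ 2) {ε : ℝ} (hε : 0 < ε) (hε2 : ε ≤ 2)
    (hn : 2 * (1 - ε ^ 2 / 4) ^ n ≤ ε) : |s| * (1 - s ^ 2 / 4) ^ n ≤ ε := by
  have hs2 : s ^ 2 ≤ 4 := by
    have := sq_abs s
    nlinarith [abs_nonneg s]
  have h0 : 0 ≤ 1 - s ^ 2 / 4 := by linarith
  rcases le_total |s| ε with h | h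
  · have h1 : (1 - s ^ 2 / 4) ^ n ≤ 1 := pow_le_one₀ h0 (by nlinarith [sq_nonneg s])
    calc |s| * (1 - s ^ 2 / 4) ^ n ≤ ε * 1 :=
          mul_le_mul h h1 (pow_nonneg h0 _) hε.le
      _ = ε := mul_one _
  · have h1 : ε ^ 2 ≤ s ^ 2 := by
      rw [← sq_abs s]
      exact pow_le_pow_left₀ hε.le h 2
    have h2 : (1 - s ^ 2 / 4) ^ n ≤ (1 - ε ^ 2 / 4) ^ n :=
      pow_le_pow_left₀ h0 (by linarith) n
    calc |s| * (1 - s ^ 2 / 4) ^ n ≤ 2 * (1 - ε ^ 2 / 4) ^ n :=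
          mul_le_mul hs h2 (pow_nonneg h0 _) (by norm_num)
      _ ≤ ε := hn

/-- A normed space represented isometrically as an algebra of real functions attaining their
norms has numerical index one. -/
theorem radius_of_fun {K : Type*} (φ : K → StrongDual ℝ Z) (h1 : ∀ t z, |φ t z| ≤ ‖z‖)
    (h2 : ∀ z, z ≠ 0 → ∃ t, |φ t z| = ‖z‖)
    (h3 : ∀ z w, ∃ m, ∀ t, φ t m = φ t z * φ t w) (T : Z →L[ℝ] Z) : ‖T‖ ≤ numRadius T := by
  have nle : ∀ (z : Z) (r : ℝ), 0 ≤ r → (∀ t, |φ t z| ≤ r) → ‖z‖ ≤ r := by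
    intro z r hr h
    rcases eq_or_ne z 0 with rfl | hz
    · simpa using hr
    obtain ⟨t, ht⟩ := h2 z hz
    rw [← ht]; exact h t
  have hv := numRadius_nonneg T
  apply ContinuousLinearMap.opNorm_le_of_unit_norm hv
  intro x hx
  rcases eq_or_ne (T x) 0 with h0 | h0
  · rw [h0, norm_zero]; exact hv
  obtain ⟨t₀, ht₀⟩ := h2 _ h0
  have hN : 0 < ‖T x‖ := norm_pos_iff.2 h0
  set N := ‖T x‖ with hNdef
  set l := φ t₀ x with hl
  have hl1 : |l| ≤ 1 := hx ▸ h1 t₀ x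
  -- the peaking elements
  have hu : ∀ n : ℕ, ∃ u : Z, ∀ t, φ t u = (φ t (T x) / N) ^ 2 * (1 - (φ t x - l) ^ 2 / 4) ^ n := by
    intro n
    induction n with
    | zero =>
      obtain ⟨m, hm⟩ := h3 (T x) (T x)
      refine ⟨(N ^ 2)⁻¹ • m, fun t => ?_⟩
      rw [map_smul, hm, smul_eq_mul]
      field_simp
    | succ n ih =>
      obtain ⟨u, hu⟩ := ih
      obtain ⟨m1, hm1⟩ := h3 x u
      obtain ⟨m2, hm2⟩ := h3 x m1
      refine ⟨(1 - l ^ 2 / 4) • u + (l / 2) • m1 - (1 / 4 : ℝ) • m2, fun t => ?_⟩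
      rw [map_sub, map_add, map_smul, map_smul, map_smul, hm2, hm1, hu, pow_succ]
      simp only [smul_eq_mul]
      ring
  apply le_of_forall_pos_le_add
  intro ε hε
  set η := min (ε / (‖T‖ + 1)) 2 with hη
  have hT0 := T.opNorm_nonneg
  have hη0 : 0 < η := lt_min (by positivity) (by norm_num)
  have hη2 : η ≤ 2 := min_le_right _ _
  have hη1 : ‖T‖ * η ≤ ε := by
    have : η ≤ ε / (‖T‖ + 1) := min_le_left _ _
    rw [le_div_iff₀ (by positivity)] at this
    nlinarith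
  obtain ⟨n, hn⟩ : ∃ n : ℕ, (1 - η ^ 2 / 4) ^ n < η / 2 :=
    exists_pow_lt_of_lt_one (by positivity) (by nlinarith)
  obtain ⟨u, hu⟩ := hu n
  obtain ⟨xu, hxu⟩ := h3 x u
  have hx1 : ∀ t, |φ t x| ≤ 1 := fun t => hx ▸ h1 t x
  have hd : ∀ t, |φ t x - l| ≤ 2 := fun t => by
    have := abs_sub (φ t x) l
    linarith [hx1 t]
  have hw : ∀ t, (φ t (T x) / N) ^ 2 ≤ 1 := fun t => by
    rw [← sq_abs, abs_div, abs_of_pos hN]
    apply pow_le_one₀ (by positivity)
    rw [div_le_one hN]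
    exact h1 t _
  have hb : ∀ t, 0 ≤ 1 - (φ t x - l) ^ 2 / 4 := fun t => by
    have := sq_abs (φ t x - l)
    nlinarith [abs_nonneg (φ t x - l), hd t]
  have hu0 : ∀ t, 0 ≤ φ t u := fun t => by
    rw [hu]; exact mul_nonneg (sq_nonneg _) (pow_nonneg (hb t) _)
  have hu1 : ∀ t, φ t u ≤ 1 := fun t => by
    rw [hu]
    exact mul_le_one₀ (hw t) (pow_nonneg (hb t) _)
      (pow_le_one₀ (hb t) (by nlinarith [sq_nonneg (φ t x - l)]))
  have hut : φ t₀ u = 1 := by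
    rw [hu, ← hl, ← sq_abs, abs_div, ht₀, abs_of_pos hN, div_self hN.ne']
    simp
  have herr : ‖xu - l • u‖ ≤ η := by
    apply nle _ _ hη0.le
    intro t
    rw [map_sub, map_smul, hxu, smul_eq_mul, ← sub_mul, abs_mul, abs_of_nonneg (hu0 t), hu]
    have := peak_bound n (φ t x - l) (hd t) hη0 hη2 (by linarith)
    calc |φ t x - l| * ((φ t (T x) / N) ^ 2 * (1 - (φ t x - l) ^ 2 / 4) ^ n)
        ≤ |φ t x - l| * (1 * (1 - (φ t x - l) ^ 2 / 4) ^ n) :=
          mul_le_mul_of_nonneg_left (mul_le_mul_of_nonneg_right (hw t) (pow_nonneg (hb t) _))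
            (abs_nonneg _)
      _ ≤ η := by rwa [one_mul]
  have hφ1 : ‖φ t₀‖ ≤ 1 := by
    apply ContinuousLinearMap.opNorm_le_bound _ zero_le_one
    intro z
    rw [one_mul, Real.norm_eq_abs]; exact h1 _ _
  -- state pairs
  have state : ∀ y : Z, ‖y‖ ≤ 1 → φ t₀ y = 1 → |φ t₀ (T y)| ≤ numRadius T := by
    intro y hy hφy
    have e1 : ‖y‖ = 1 := by
      apply le_antisymm hy
      have := h1 t₀ y
      rwa [hφy, abs_one] at this
    have e2 : ‖φ t₀‖ = 1 := by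
      apply le_antisymm hφ1
      have := (φ t₀).le_opNorm y
      rwa [hφy, e1, norm_one, mul_one] at this
    exact le_numRadius T e1 e2 hφy
  have sp : |φ t₀ (T (x - xu + u))| ≤ numRadius T := by
    apply state
    · apply nle _ _ zero_le_one
      intro t
      rw [map_add, map_sub, hxu, abs_le]
      have := abs_le.1 (hx1 t)
      constructor <;> nlinarith [hu0 t, hu1 t]
    · rw [map_add, map_sub, hxu, hut]; ring
  have sm : |φ t₀ (T (x - xu - u))| ≤ numRadius T := by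
    have : |φ t₀ (T (-(x - xu - u)))| ≤ numRadius T := by
      apply state
      · apply nle _ _ zero_le_one
        intro t
        rw [map_neg, map_sub, map_sub, hxu, abs_le]
        have := abs_le.1 (hx1 t)
        constructor <;> nlinarith [hu0 t, hu1 t]
      · rw [map_neg, map_sub, map_sub, hxu, hut]; ring
    rwa [map_neg, map_neg, abs_neg] at this
  have hdec : x = ((1 + l) / 2) • (x - xu + u) + ((1 - l) / 2) • (x - xu - u) + (xu - l • u) := by
    module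
  have hval : φ t₀ (T x) = ((1 + l) / 2) * φ t₀ (T (x - xu + u)) +
      ((1 - l) / 2) * φ t₀ (T (x - xu - u)) + φ t₀ (T (xu - l • u)) := by
    conv_lhs => rw [hdec]
    simp only [map_add, map_smul, smul_eq_mul]
  have he : |φ t₀ (T (xu - l • u))| ≤ ε := by
    refine (h1 _ _).trans ((T.le_opNorm _).trans ?_)
    exact (mul_le_mul_of_nonneg_left herr hT0).trans hη1
  have hl2 := abs_le.1 hl1
  have a1 := abs_le.1 sp
  have a2 := abs_le.1 sm
  have a3 := abs_le.1 he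
  rw [← ht₀, hval, abs_le]
  constructor <;> nlinarith

end Pool.Agent.H786Z.NI
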