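import Pool.Agent.H786Z.NI.Basic

open Filter Topology

namespace Pool.Agent.H786Z.NI

variable {X : Type*} [NormedAddCommGroup X] [NormedSpace ℝ X]

/-- Weak-star convergence along a filter. -/
def WLim {ι : Type*} (U : Filter ι) (x : ι → StrongDual ℝ X) (z : StrongDual ℝ X) : Prop :=
  ∀ ξ : X, Tendsto (fun i => x i ξ) U (𝓝 (z ξ))

theorem exists_wlim {ι : Type*} (U : Ultrafilter ι) (x : ι → StrongDual ℝ X) (R : ℝ)
    (h : ∀ᶠ i in U, ‖x i‖ ≤ R) : ∃ z, WLim U x z := by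
  have hc := WeakDual.isCompact_closedBall (𝕜 := ℝ) (0 : StrongDual ℝ X) R
  obtain ⟨z, -, hz⟩ := hc.ultrafilter_le_nhds (U.map fun i => StrongDual.toWeakDual (x i)) (by
    rw [le_principal_iff, Ultrafilter.mem_coe, Ultrafilter.mem_map]
    filter_upwards [h] with i hi
    simpa using hi)
  refine ⟨WeakDual.toStrongDual z, fun ξ => ?_⟩
  have h1 : Tendsto (fun i => StrongDual.toWeakDual (x i)) U (𝓝 z) := hz
  exact ((WeakDual.eval_continuous ξ).tendsto z).comp h1

theorem WLim.norm_le {ι : Type*} {U : Filter ι} [U.NeBot] {x : ι → StrongDual ℝ X}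
    {z : StrongDual ℝ X} (h : WLim U x z) {R : ℝ} (hR : ∀ᶠ i in U, ‖x i‖ ≤ R) : ‖z‖ ≤ R := by
  have hR0 : 0 ≤ R := by
    obtain ⟨i, hi⟩ := hR.exists
    exact (norm_nonneg _).trans hi
  apply ContinuousLinearMap.opNorm_le_bound _ hR0
  intro ξ
  apply le_of_tendsto (h ξ).norm
  filter_upwards [hR] with i hi
  exact ((x i).le_opNorm ξ).trans (mul_le_mul_of_nonneg_right hi (norm_nonneg _))

theorem WLim.add_const {ι : Type*} {U : Filter ι} {x : ι → StrongDual ℝ X}
    {z : StrongDual ℝ X} (h : WLim U x z) (w : StrongDual ℝ X) :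
    WLim U (fun i => x i + w) (z + w) := fun ξ => by
  simpa using (h ξ).add_const (w ξ)

theorem WLim.sub {ι : Type*} {U : Filter ι} {x y : ι → StrongDual ℝ X}
    {z w : StrongDual ℝ X} (h : WLim U x z) (h' : WLim U y w) :
    WLim U (fun i => x i - y i) (z - w) := fun ξ => by
  simpa using (h ξ).sub (h' ξ)

theorem mem_range_of_approx [CompleteSpace X] {Y : Type*} [NormedAddCommGroup Y] [NormedSpace ℝ Y]
    (J : X →ₗᵢ[ℝ] Y) (y : Y) (h : ∀ ε > 0, ∃ x, ‖y - J x‖ < ε) : y ∈ Set.range J := by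
  have hclosed : IsClosed (Set.range J) := J.isometry.isClosedEmbedding.isClosed_range
  rw [← hclosed.closure_eq, Metric.mem_closure_iff]
  intro ε hε
  obtain ⟨x, hx⟩ := h ε hε
  exact ⟨J x, ⟨x, rfl⟩, by rwa [dist_eq_norm]⟩

/-- A functional on the dual which is weak-star continuous on the unit ball comes from the
space. -/
theorem exists_eval [CompleteSpace X] (φ : StrongDual ℝ (StrongDual ℝ X))
    (h : ∀ (U : Ultrafilter (Finset X)) (x : Finset X → StrongDual ℝ X), (∀ i, ‖x i‖ ≤ 1) →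
      WLim U x 0 → Tendsto (fun i => φ (x i)) U (𝓝 0)) : ∃ ξ : X, ∀ f, φ f = f ξ := by
  classical
  have step : ∀ ε > 0, ∃ F : Finset X, ∀ f : StrongDual ℝ X, ‖f‖ ≤ 1 → (∀ ξ ∈ F, f ξ = 0) →
      |φ f| ≤ ε := by
    intro ε hε
    by_contra hcon
    push Not at hcon
    choose x hx1 hx2 hx3 using hcon
    let U : Ultrafilter (Finset X) := Ultrafilter.of atTop
    have hU : (U : Filter (Finset X)) ≤ atTop := Ultrafilter.of_le _
    have hw : WLim U x 0 := by
      intro ξ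
      apply tendsto_const_nhds.congr'
      apply hU
      filter_upwards [eventually_ge_atTop ({ξ} : Finset X)] with F hF
      simpa using (hx2 F ξ (hF (Finset.mem_singleton_self ξ))).symm
    have h1 := (h U x hx1 hw).abs
    rw [abs_zero] at h1
    have h2 : ε ≤ 0 := ge_of_tendsto h1 (Eventually.of_forall fun F => (hx3 F).le)
    linarith
  let J := NormedSpace.inclusionInDoubleDualLi (E := X) ℝ
  have hJ : ∀ ξ f, J ξ f = f ξ := fun ξ f => rfl
  have hmem : φ ∈ Set.range J := by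
    refine mem_range_of_approx (Y := StrongDual ℝ (StrongDual ℝ X)) J φ ?_
    intro ε hε
    obtain ⟨F, hF⟩ := step (ε / 2) (by positivity)
    let L : F → (StrongDual ℝ X →ₗ[ℝ] ℝ) := fun ξ => (J ξ.1 : StrongDual ℝ X →ₗ[ℝ] ℝ)
    let N : Submodule ℝ (StrongDual ℝ X) := ⨅ i, LinearMap.ker (L i)
    have hN : ∀ f ∈ N, ∀ ξ ∈ F, f ξ = 0 := by
      intro f hf ξ hξ
      have := (Submodule.mem_iInf _).1 hf ⟨ξ, hξ⟩
      exact this
    obtain ⟨ψ, hψ1, hψ2⟩ := exists_extension_norm_eq N (φ.comp N.subtypeL)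
    have hψ : ‖ψ‖ ≤ ε / 2 := by
      rw [hψ2]
      apply ContinuousLinearMap.opNorm_le_of_unit_norm (by positivity)
      intro f hf
      exact hF f.1 (le_of_eq hf) (hN f.1 f.2)
    have hspan : ((φ - ψ : StrongDual ℝ (StrongDual ℝ X)) : StrongDual ℝ X →ₗ[ℝ] ℝ) ∈
        Submodule.span ℝ (Set.range L) := by
      apply mem_span_of_iInf_ker_le_ker
      intro f hf
      have := hψ1 ⟨f, hf⟩
      simp only [LinearMap.mem_ker, ContinuousLinearMap.coe_coe, sub_apply]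
      rw [this]
      simp
    obtain ⟨c, hc⟩ := (Submodule.mem_span_range_iff_exists_fun ℝ).1 hspan
    refine ⟨∑ i : F, c i • i.1, ?_⟩
    have : φ - J (∑ i : F, c i • i.1) = ψ := by
      ext f
      have h1 := LinearMap.congr_fun hc f
      simp only [LinearMap.sum_apply, LinearMap.smul_apply, ContinuousLinearMap.coe_coe,
        sub_apply, L, hJ] at h1
      rw [sub_apply, hJ, map_sum]
      simp only [map_smul]
      linarith
    rw [this]
    linarith
  obtain ⟨ξ, rfl⟩ := hmem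
  exact ⟨ξ, fun f => rfl⟩

/-- The operator is an adjoint operator. -/
def WC (T : StrongDual ℝ X →L[ℝ] StrongDual ℝ X) : Prop :=
  ∃ S : X →L[ℝ] X, ∀ f x, T f x = f (S x)

theorem WC.of_pointwise (T : StrongDual ℝ X →L[ℝ] StrongDual ℝ X)
    (h : ∀ ξ, ∃ η, ∀ f, T f ξ = f η) : WC T := by
  choose S hS using h
  have sep : ∀ a b : X, (∀ f : StrongDual ℝ X, f a = f b) → a = b :=
    fun a b h => (SeparatingDual.eq_iff_forall_dual_eq (R := ℝ)).2 h
  let S' : X →ₗ[ℝ] X :=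
    { toFun := S
      map_add' := fun a b => sep _ _ fun f => by rw [map_add, ← hS, ← hS, ← hS, map_add]
      map_smul' := fun c a => sep _ _ fun f => by
        rw [RingHom.id_apply, map_smul, ← hS, ← hS, map_smul] }
  have hT0 := T.opNorm_nonneg
  refine ⟨S'.mkContinuous ‖T‖ fun x => ?_, fun f x => hS x f⟩
  apply NormedSpace.norm_le_dual_bound ℝ _ (by positivity)
  intro f
  change ‖f (S x)‖ ≤ _
  rw [← hS]
  calc ‖T f x‖ ≤ ‖T f‖ * ‖x‖ := (T f).le_opNorm x
    _ ≤ ‖T‖ * ‖f‖ * ‖x‖ := mul_le_mul_of_nonneg_right (T.le_opNorm f) (norm_nonneg _)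
    _ = _ := by ring

theorem WC.id : WC (ContinuousLinearMap.id ℝ (StrongDual ℝ X)) :=
  ⟨ContinuousLinearMap.id ℝ X, fun _ _ => rfl⟩

theorem WC.sub {T T' : StrongDual ℝ X →L[ℝ] StrongDual ℝ X} (h : WC T) (h' : WC T') :
    WC (T - T') := by
  obtain ⟨S, hS⟩ := h
  obtain ⟨S', hS'⟩ := h'
  exact ⟨S - S', fun f x => by simp [hS, hS']⟩

theorem WC.smul {T : StrongDual ℝ X →L[ℝ] StrongDual ℝ X} (h : WC T) (c : ℝ) : WC (c • T) := by
  obtain ⟨S, hS⟩ := h
  exact ⟨c • S, fun f x => by simp [hS]⟩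

theorem WC.comp {T T' : StrongDual ℝ X →L[ℝ] StrongDual ℝ X} (h : WC T) (h' : WC T') :
    WC (T.comp T') := by
  obtain ⟨S, hS⟩ := h
  obtain ⟨S', hS'⟩ := h'
  exact ⟨S'.comp S, fun f x => by simp [hS, hS']⟩

theorem eq_zero_of_growth {a C : ℝ} (ha : 0 ≤ a)
    (h : ∀ n : ℕ, ((n + 1) * a) ^ 2 ≤ C + (n * a) ^ 2) : a = 0 := by
  by_contra h0
  have hp : 0 < a ^ 2 := by positivity
  obtain ⟨n, hn⟩ := exists_nat_gt (C / a ^ 2)
  rw [div_lt_iff₀ hp] at hn
  have := h n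
  have hn0 : (0 : ℝ) ≤ n := n.cast_nonneg
  nlinarith

/-- The range of a Pythagorean projection is boundedly weak-star closed. -/
theorem fixed_of_wlim {ι : Type*} {U : Filter ι} [U.NeBot]
    (P Q : StrongDual ℝ X →L[ℝ] StrongDual ℝ X) (hPQ : ∀ f, P f + Q f = f)
    (hpy : ∀ f g, ‖P f + Q g‖ ^ 2 ≤ ‖P f‖ ^ 2 + ‖Q g‖ ^ 2)
    {x : ι → StrongDual ℝ X} {R : ℝ} (hx : ∀ i, ‖P (x i)‖ ≤ R) {y : StrongDual ℝ X}
    (hy : WLim U (fun i => P (x i)) y) : Q y = 0 := by
  rw [← norm_eq_zero]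
  apply eq_zero_of_growth (C := (R + ‖P y‖) ^ 2) (norm_nonneg _)
  intro n
  have h1 := hy.add_const (-P y + (n : ℝ) • Q y)
  have e : y + (-P y + (n : ℝ) • Q y) = ((n : ℝ) + 1) • Q y := by
    conv_lhs => rw [← hPQ y]
    rw [map_add, map_add]
    have e1 : P (P y) + Q (P y) = P y := hPQ _
    have e2 : P (Q y) + Q (Q y) = Q y := hPQ _
    have e3 : P (P y) + P (Q y) = P y := by rw [← map_add, hPQ]
    have e4 : Q (P y) + Q (Q y) = Q y := by rw [← map_add, hPQ]
    rw [e3, e4]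
    module
  rw [e] at h1
  have h2 := h1.norm_le (R := Real.sqrt ((R + ‖P y‖) ^ 2 + (n * ‖Q y‖) ^ 2))
    (Eventually.of_forall fun i => by
      apply Real.le_sqrt_of_sq_le
      have e2 : P (x i) + (-P y + (n : ℝ) • Q y) = P (x i - y) + Q ((n : ℝ) • y) := by
        rw [map_sub, map_smul]; abel
      rw [e2]
      refine (hpy _ _).trans (add_le_add ?_ ?_)
      · apply pow_le_pow_left₀ (norm_nonneg _)
        rw [map_sub]
        exact (norm_sub_le _ _).trans (by linarith [hx i])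
      · rw [map_smul, norm_smul, Real.norm_natCast])
  rw [norm_smul, Real.norm_eq_abs, abs_of_nonneg (by positivity)] at h2
  exact (Real.le_sqrt (by positivity) (by positivity)).1 h2

theorem WC.of_pyth [CompleteSpace X] (P : StrongDual ℝ X →L[ℝ] StrongDual ℝ X)
    (hpy : ∀ f g, ‖P f + (g - P g)‖ ^ 2 ≤ ‖P f‖ ^ 2 + ‖g - P g‖ ^ 2) : WC P := by
  apply WC.of_pointwise
  intro ξ
  let Q : StrongDual ℝ X →L[ℝ] StrongDual ℝ X := ContinuousLinearMap.id ℝ _ - P
  have hQ : ∀ f, Q f = f - P f := fun f => rfl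
  apply exists_eval ((NormedSpace.inclusionInDoubleDual ℝ X ξ).comp P)
  intro U x hx hw
  have hP0 := P.opNorm_nonneg
  have hb : ∀ i, ‖P (x i)‖ ≤ ‖P‖ := fun i =>
    (P.le_opNorm _).trans (mul_le_of_le_one_right hP0 (hx i))
  obtain ⟨y, hy⟩ := exists_wlim U (fun i => P (x i)) ‖P‖ (Eventually.of_forall hb)
  have h1 : Q y = 0 := fixed_of_wlim P Q (fun f => by rw [hQ]; abel) hpy hb hy
  have h2 : P (0 - y) = 0 := by
    refine fixed_of_wlim (U := (U : Filter (Finset X))) Q P (fun f => by rw [hQ]; abel)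
      (fun f g => ?_) (x := x) (R := 1 + ‖P‖) (fun i => ?_) (hw.sub hy)
    · rw [add_comm (Q f), add_comm (‖Q f‖ ^ 2)]
      exact hpy g f
    · rw [hQ]
      exact (norm_sub_le _ _).trans (add_le_add (hx i) (hb i))
  have h3 : y = 0 := by
    rw [zero_sub, map_neg, neg_eq_zero] at h2
    rw [hQ, h2, sub_zero] at h1
    exact h1
  rw [h3] at hy
  exact hy ξ

/-- The unit ball of a dual space has an extreme point. -/
theorem exists_extreme : ∃ e : StrongDual ℝ X, ‖e‖ ≤ 1 ∧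
    ∀ y : StrongDual ℝ X, ‖e + y‖ ≤ 1 → ‖e - y‖ ≤ 1 → y = 0 := by
  have hc := WeakDual.isCompact_closedBall (𝕜 := ℝ) (0 : StrongDual ℝ X) 1
  have : LocallyConvexSpace ℝ (WeakDual ℝ X) := (WeakDual.withSeminorms ℝ X).toLocallyConvexSpace
  obtain ⟨e, he⟩ := hc.extremePoints_nonempty ⟨0, by simp⟩
  rw [mem_extremePoints_iff_left] at he
  refine ⟨WeakDual.toStrongDual e, by simpa using he.1, fun y h1 h2 => ?_⟩
  have := he.2 (e + StrongDual.toWeakDual y) (by simpa using h1) (e - StrongDual.toWeakDual y)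
    (by simpa using h2) ⟨1 / 2, 1 / 2, by norm_num, by norm_num, by norm_num, by module⟩
  have h3 : StrongDual.toWeakDual y = 0 := by simpa using this
  simpa using h3

/-- Bounded sequences in a dual space have a point lying in every ball eventually containing
them. -/
theorem exists_cluster (c : ℕ → StrongDual ℝ X) (R : ℝ) (hc : ∀ n, ‖c n‖ ≤ R) :
    ∃ z : StrongDual ℝ X, ∀ (d : StrongDual ℝ X) (r : ℝ), (∀ᶠ n in atTop, ‖c n - d‖ ≤ r) →
      ‖z - d‖ ≤ r := by
  let U : Ultrafilter ℕ := Ultrafilter.of atTop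
  have hU : (U : Filter ℕ) ≤ atTop := Ultrafilter.of_le _
  obtain ⟨z, hz⟩ := exists_wlim U c R (Eventually.of_forall hc)
  refine ⟨z, fun d r h => ?_⟩
  have := hz.add_const (-d)
  simp only [← sub_eq_add_neg] at this
  exact this.norm_le (hU h)

end Pool.Agent.H786Z.NI
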