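import Pool.Agent.H786Z.NI.CStar3
import Pool.Agent.H786Z.NI.Weak
import Pool.Agent.H786Z.NI.One

open Filter Topology

namespace Pool.Agent.H786Z.NI

theorem comm_chars {C : Type*} [CommCStarAlgebra C] {Z : Type*} [NormedAddCommGroup Z]
    [NormedSpace ℝ Z] (j : Z →ₗ[ℝ] C) (hj : ∀ z, ‖j z‖ = ‖z‖) (hsa : ∀ z, star (j z) = j z)
    (hmul : ∀ z w, ∃ m, j m = j z * j w) (T : Z →L[ℝ] Z) : ‖T‖ ≤ numRadius T := by
  have hiso : ∀ y : C, ‖WeakDual.gelfandTransform ℂ C y‖ = ‖y‖ := fun y =>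
    (gelfandTransform_isometry C).norm_map_of_map_zero (map_zero _) y
  have hle : ∀ (t : WeakDual.characterSpace ℂ C) (y : C), ‖t y‖ ≤ ‖y‖ := fun t y => by
    rw [← hiso y]
    exact (WeakDual.gelfandTransform ℂ C y).norm_coe_le_norm t
  have hre : ∀ (t : WeakDual.characterSpace ℂ C) (z : Z), t (j z) = ((t (j z)).re : ℂ) := by
    intro t z
    have h1 : star (t (j z)) = t (j z) := by rw [← map_star, hsa]
    exact (Complex.conj_eq_iff_re.1 h1).symm
  let ψ : WeakDual.characterSpace ℂ C → Z →ₗ[ℝ] ℝ := fun t =>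
    { toFun := fun z => (t (j z)).re
      map_add' := fun a b => by rw [map_add, map_add, Complex.add_re]
      map_smul' := fun c a => by
        rw [map_smul, ← Complex.coe_smul, map_smul, smul_eq_mul, Complex.re_ofReal_mul]
        rfl }
  have hψ : ∀ t z, ‖ψ t z‖ ≤ 1 * ‖z‖ := fun t z => by
    rw [one_mul, ← hj]
    exact (Complex.abs_re_le_norm _).trans (hle t _)
  apply radius_of_fun (fun t => (ψ t).mkContinuous 1 (hψ t))
  · intro t z
    simpa using hψ t z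
  · intro z hz
    have hz' : j z ≠ 0 := by
      rw [← norm_ne_zero_iff, hj, norm_ne_zero_iff]; exact hz
    have : Nontrivial C := ⟨⟨_, _, hz'⟩⟩
    obtain ⟨t, -, ht⟩ := isCompact_univ.exists_isMaxOn Set.univ_nonempty
      (WeakDual.gelfandTransform ℂ C (j z)).continuous.norm.continuousOn
    refine ⟨t, ?_⟩
    change |(t (j z)).re| = _
    have h1 : ‖t (j z)‖ = ‖z‖ := by
      apply le_antisymm (hj z ▸ hle t _)
      rw [← hj, ← hiso]
      rw [ContinuousMap.norm_le _ (norm_nonneg _)]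
      intro s
      exact ht (Set.mem_univ s)
    rw [← h1]
    conv_rhs => rw [hre, Complex.norm_real, Real.norm_eq_abs]
  · intro z w
    obtain ⟨m, hm⟩ := hmul z w
    refine ⟨m, fun t => ?_⟩
    change (t (j m)).re = (t (j z)).re * (t (j w)).re
    rw [hm, map_mul, hre t z, Complex.re_ofReal_mul, Complex.ofReal_re]

variable {B : Type*} [CStarAlgebra B] {S : NonUnitalStarSubalgebra ℝ B}

theorem radius_of_selfAdjoint {Z : Type*} [NormedAddCommGroup Z] [NormedSpace ℝ Z]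
    (ι : Z →ₗᵢ[ℝ] B) (hι : ∀ b, b ∈ S ↔ ∃ z, ι z = b) (hsa : ∀ a ∈ S, star a = a)
    (T : Z →L[ℝ] Z) : ‖T‖ ≤ numRadius T := by
  have hcomm : ∀ a ∈ S, ∀ b ∈ S, a * b = b * a := fun a ha b hb => by
    rw [← hsa _ (mul_mem ha hb), star_mul, hsa a ha, hsa b hb]
  have hc := StarAlgebra.isMulCommutative_adjoin ℂ (s := (S : Set B)) hcomm
    (fun a ha b hb => hcomm a ha _ (star_mem hb))
  let C : StarSubalgebra ℂ B := (StarAlgebra.adjoin ℂ (S : Set B)).topologicalClosure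
  have hC : IsClosed (C : Set B) := StarSubalgebra.isClosed_topologicalClosure _
  have hmc : ∀ x y : C, x * y = y * x :=
    (StarSubalgebra.commRingTopologicalClosure (StarAlgebra.adjoin ℂ (S : Set B))
      hc.is_comm.comm).mul_comm
  letI : CommCStarAlgebra C := { StarSubalgebra.cstarAlgebra C with mul_comm := hmc }
  have hmem : ∀ z, ι z ∈ C := fun z =>
    StarSubalgebra.le_topologicalClosure _ (StarAlgebra.subset_adjoin ℂ _ ((hι _).2 ⟨z, rfl⟩))
  let j : Z →ₗ[ℝ] C :=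
    { toFun := fun z => ⟨ι z, hmem z⟩
      map_add' := fun a b => Subtype.ext (map_add ι a b)
      map_smul' := fun c a => Subtype.ext (map_smul ι c a) }
  refine comm_chars j (fun z => ι.norm_map z) (fun z => Subtype.ext (hsa _ ((hι _).2 ⟨z, rfl⟩)))
    (fun z w => ?_) T
  obtain ⟨m, hm⟩ := (hι _).1 (mul_mem ((hι _).2 ⟨z, rfl⟩) ((hι _).2 ⟨w, rfl⟩))
  exact ⟨m, Subtype.ext hm⟩

theorem exists_lift {Z : Type*} [NormedAddCommGroup Z] [NormedSpace ℝ Z]
    (ι : Z →ₗᵢ[ℝ] B) (hι : ∀ b, b ∈ S ↔ ∃ z, ι z = b) (P : B →L[ℝ] B) (hP : ∀ x ∈ S, P x ∈ S) :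
    ∃ P' : Z →L[ℝ] Z, ∀ z, ι (P' z) = P (ι z) := by
  have h : ∀ z, ∃ w, ι w = P (ι z) := fun z => (hι _).1 (hP _ ((hι _).2 ⟨z, rfl⟩))
  choose Q hQ using h
  let Q' : Z →ₗ[ℝ] Z :=
    { toFun := Q
      map_add' := fun a b => ι.injective (by rw [map_add, hQ, hQ, hQ, map_add, map_add])
      map_smul' := fun c a => ι.injective (by
        rw [RingHom.id_apply, map_smul, hQ, hQ, map_smul, map_smul]) }
  refine ⟨Q'.mkContinuous ‖P‖ fun z => ?_, hQ⟩
  change ‖Q z‖ ≤ _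
  rw [← ι.norm_map, hQ, ← ι.norm_map z]
  exact P.le_opNorm _

theorem index_zero_alg {Z : Type*} [NormedAddCommGroup Z] [NormedSpace ℝ Z]
    (ι : Z →ₗᵢ[ℝ] B) (hι : ∀ b, b ∈ S ↔ ∃ z, ι z = b) (hk : ∃ a ∈ S, star a ≠ a) :
    numIndex Z = 0 := by
  obtain ⟨a, haS, ha⟩ := hk
  set k := a - star a with hk
  have hkS : k ∈ S := sub_mem haS (star_mem haS)
  have hk0 : k ≠ 0 := sub_ne_zero.2 ha.symm
  have hsk : star k = -k := by rw [hk, star_sub, star_star, neg_sub]
  obtain ⟨T, hT⟩ := exists_lift ι hι (ContinuousLinearMap.mul ℝ B k) fun x hx => mul_mem hkS hx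
  simp only [ContinuousLinearMap.mul_apply'] at hT
  refine index_zero_of_skew T ?_ (‖k‖ ^ 2) fun t x => ?_
  · rintro rfl
    obtain ⟨z, hz⟩ := (hι _).1 (star_mem hkS)
    have := hT z
    rw [hz, zero_apply, map_zero, eq_comm, CStarRing.mul_star_self_eq_zero_iff] at this
    exact hk0 this
  · rw [← ι.norm_map, ← ι.norm_map x, map_add, map_smul, hT]
    exact skew_left hsk t _

theorem index_zero_predual (hS : IsClosed (S : Set B)) {X : Type*} [NormedAddCommGroup X]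
    [NormedSpace ℝ X] [CompleteSpace X] (ι : StrongDual ℝ X →ₗᵢ[ℝ] B)
    (hι : ∀ b, b ∈ S ↔ ∃ z, ι z = b) (hk : ∃ a ∈ S, star a ≠ a) : numIndex X = 0 := by
  letI := CStarAlgebra.spectralOrder B
  haveI := CStarAlgebra.spectralOrderedRing B
  have hmem : ∀ z, ι z ∈ S := fun z => (hι _).2 ⟨z, rfl⟩
  obtain ⟨e, he1, he⟩ := exists_extreme (X := X)
  obtain ⟨u, hu1, hu2, hu3⟩ := exists_unit S (ι e) (hmem e) (by rwa [ι.norm_map]) (by
    intro y hy h1 h2
    obtain ⟨y, rfl⟩ := (hι _).1 hy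
    rw [← map_add, ι.norm_map] at h1
    rw [← map_sub, ι.norm_map] at h2
    rw [he y h1 h2, map_zero])
  have hu : IsUnitOf S u := ⟨hu1, hu2, hu3⟩
  have hcl : Cluster S := by
    intro c R hc hR
    choose c' hc' using fun n => (hι _).1 (hc n)
    obtain ⟨z, hz⟩ := exists_cluster c' R fun n => by rw [← ι.norm_map, hc']; exact hR n
    refine ⟨ι z, hmem z, fun d hd r h => ?_⟩
    obtain ⟨d, rfl⟩ := (hι _).1 hd
    rw [← map_sub, ι.norm_map]
    apply hz
    filter_upwards [h] with n hn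
    rwa [← hc', ← map_sub, ι.norm_map] at hn
  let W : (B → B) → Prop := fun T =>
    ∃ T' : StrongDual ℝ X →L[ℝ] StrongDual ℝ X, WC T' ∧ ∀ f, ι (T' f) = T (ι f)
  have hW : GoodClass S W :=
    { id := ⟨_, WC.id, fun f => rfl⟩
      sub := by
        rintro f g ⟨T, hT, hT'⟩ ⟨U, hU, hU'⟩
        exact ⟨_, hT.sub hU, fun x => by rw [sub_apply, map_sub, hT', hU']⟩
      smul := by
        rintro c f ⟨T, hT, hT'⟩
        exact ⟨_, hT.smul c, fun x => by rw [smul_apply, map_smul, hT']⟩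
      comp := by
        rintro f g ⟨T, hT, hT'⟩ ⟨U, hU, hU'⟩
        exact ⟨_, hT.comp hU, fun x => by rw [ContinuousLinearMap.comp_apply, hT', hU']⟩
      congr := by
        rintro f g ⟨T, hT, hT'⟩ h
        exact ⟨_, hT, fun x => by rw [hT', h _ (hmem x)]⟩
      pyth := by
        intro P hP hpy
        obtain ⟨P', hP'⟩ := exists_lift ι hι P hP
        refine ⟨P', WC.of_pyth P' fun f g => ?_, hP'⟩
        rw [← ι.norm_map, ← ι.norm_map (P' f), ← ι.norm_map (g - P' g), map_add, map_sub, hP', hP']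
        exact hpy _ (hmem f) _ (hmem g) }
  obtain ⟨T, ⟨T', ⟨S', hS'⟩, hT'⟩, ⟨x, hx, hx0⟩, C, hC⟩ := exists_skew hS hu hcl hW hk
  refine index_zero_of_skew_dual T' ?_ S' hS' C fun t f => ?_
  · rintro rfl
    obtain ⟨x, rfl⟩ := (hι _).1 hx
    apply hx0
    rw [← hT', zero_apply, map_zero]
  · rw [← ι.norm_map, ← ι.norm_map f, map_add, map_smul, hT']
    exact hC t _

end Pool.Agent.H786Z.NI
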